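import Mathlib
import Pool.Agent.Helper222.CPE.Defs
import Pool.Agent.Helper222.CPE.Ent
import Pool.Agent.Helper222.CPE.Rot
import Pool.Agent.Helper222.CPE.Circle
import Pool.Agent.Helper222.CPE.CaseI

open Set Filter Topology

namespace Pool.Agent.Y313.CP

open Pool.Agent.Helper222.CPE

/-- The robust crossing relation: near the given quadruple `(p, q, r, s)`, every connected set
through the first and third point meets every connected set through the second and fourth. -/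
def CrossSet (X : Type) [TopologicalSpace X] : Set (X × X × X × X) :=
  interior {q | ∀ C C' : Set X, IsPreconnected C → IsPreconnected C' → q.1 ∈ C → q.2.2.1 ∈ C →
    q.2.1 ∈ C' → q.2.2.2 ∈ C' → (C ∩ C').Nonempty}

/-- Some iterate of `f` makes two disjoint connected sets cross robustly. -/
def XC {X : Type} [TopologicalSpace X] (f : X → X) : Prop :=
  ∃ (m : ℕ) (A B : Set X) (a a' b b' : X), IsPreconnected A ∧ IsPreconnected B ∧ Disjoint A B ∧
    a ∈ A ∧ a' ∈ A ∧ b ∈ B ∧ b' ∈ B ∧ (f^[m] a, f^[m] b, f^[m] a', f^[m] b') ∈ CrossSet X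

/-- No iterate `f^[M]`, `M ≥ 1`, is the identity on a nonempty open set. -/
def NF {X : Type} [TopologicalSpace X] (f : X → X) : Prop :=
  ∀ M : ℕ, 1 ≤ M → interior {x | f^[M] x = x} = ∅

theorem not_injective_of_XC {X : Type} [TopologicalSpace X] (f : X → X) (hf : Continuous f)
    (h : XC f) : ¬ Function.Injective f := by
  intro hi
  obtain ⟨m, A, B, a, a', b, b', hA, hB, hAB, ha, ha', hb, hb', hx⟩ := h
  have hx' := interior_subset hx
  have him : Function.Injective f^[m] := hi.iterate m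
  obtain ⟨z, ⟨u, hu, huz⟩, ⟨v, hv, hvz⟩⟩ := hx' (f^[m] '' A) (f^[m] '' B)
    (hA.image _ (hf.iterate m).continuousOn) (hB.image _ (hf.iterate m).continuousOn)
    ⟨a, ha, rfl⟩ ⟨a', ha', rfl⟩ ⟨b, hb, rfl⟩ ⟨b', hb', rfl⟩
  have : u = v := him (huz.trans hvz.symm)
  subst this
  exact hAB.le_bot ⟨hu, hv⟩

theorem CrossSet_conj {X Y : Type} [TopologicalSpace X] [TopologicalSpace Y] (e : X ≃ₜ Y)
    (p q r s : X) (h : (e p, e q, e r, e s) ∈ CrossSet Y) : (p, q, r, s) ∈ CrossSet X := by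
  have hc : Continuous (fun z : X × X × X × X => (e z.1, e z.2.1, e z.2.2.1, e z.2.2.2)) := by
    fun_prop
  have ho : IsOpen ((fun z : X × X × X × X => (e z.1, e z.2.1, e z.2.2.1, e z.2.2.2)) ⁻¹'
      (CrossSet Y)) := isOpen_interior.preimage hc
  refine interior_maximal ?_ ho h
  rintro z hz C C' hC hC' h1 h2 h3 h4
  obtain ⟨y, ⟨u, hu, huy⟩, ⟨v, hv, hvy⟩⟩ := interior_subset hz (e '' C) (e '' C')
    (hC.image _ e.continuous.continuousOn) (hC'.image _ e.continuous.continuousOn)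
    ⟨_, h1, rfl⟩ ⟨_, h2, rfl⟩ ⟨_, h3, rfl⟩ ⟨_, h4, rfl⟩
  have : u = v := e.injective (huy.trans hvy.symm)
  subst this
  exact ⟨u, hu, hv⟩

theorem iter_conj {X Y : Type} [TopologicalSpace X] [TopologicalSpace Y] (e : X ≃ₜ Y)
    (f : X → X) (m : ℕ) (x : X) : (fun y => e (f (e.symm y)))^[m] (e x) = e (f^[m] x) := by
  induction m with
  | zero => rfl
  | succ m ih => rw [Function.iterate_succ_apply', ih, e.symm_apply_apply,
      Function.iterate_succ_apply']

theorem XC_conj {X Y : Type} [TopologicalSpace X] [TopologicalSpace Y] (e : X ≃ₜ Y)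
    (f : X → X) (h : XC (fun y => e (f (e.symm y)))) : XC f := by
  obtain ⟨m, A, B, a, a', b, b', hA, hB, hAB, ha, ha', hb, hb', hx⟩ := h
  refine ⟨m, e ⁻¹' A, e ⁻¹' B, e.symm a, e.symm a', e.symm b, e.symm b', ?_, ?_, ?_, ?_, ?_, ?_,
    ?_, ?_⟩
  · exact e.isPreconnected_preimage.2 hA
  · exact e.isPreconnected_preimage.2 hB
  · exact hAB.preimage e
  · simpa using ha
  · simpa using ha'
  · simpa using hb
  · simpa using hb'
  · refine CrossSet_conj e _ _ _ _ ?_
    rw [← iter_conj, ← iter_conj, ← iter_conj, ← iter_conj]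
    simpa using hx

theorem isOpen_XC {X : Type} [MetricSpace X] [CompactSpace X] :
    IsOpen {f : C(X, X) | XC (f : X → X)} := by
  rw [isOpen_iff_mem_nhds]
  rintro f ⟨m, A, B, a, a', b, b', hA, hB, hAB, ha, ha', hb, hb', hx⟩
  have hc : Continuous (fun g : C(X, X) => ((g : X → X)^[m] a, (g : X → X)^[m] b,
      (g : X → X)^[m] a', (g : X → X)^[m] b')) := by
    have h1 : ∀ x : X, Continuous (fun g : C(X, X) => (g : X → X)^[m] x) := fun x =>
      (X_measurableSet_PP.pp_cont m).comp (by fun_prop : Continuous fun g : C(X, X) => (g, x))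
    exact (h1 a).prodMk ((h1 b).prodMk ((h1 a').prodMk (h1 b')))
  have ho : IsOpen ((fun g : C(X, X) => ((g : X → X)^[m] a, (g : X → X)^[m] b,
      (g : X → X)^[m] a', (g : X → X)^[m] b')) ⁻¹' (CrossSet X)) := isOpen_interior.preimage hc
  refine Filter.mem_of_superset (ho.mem_nhds hx) ?_
  intro g hg
  exact ⟨m, A, B, a, a', b, b', hA, hB, hAB, ha, ha', hb, hb', hg⟩

theorem isGδ_NW {X : Type} [MetricSpace X] [CompactSpace X] :
    IsGδ {f : C(X, X) | NW (f : X → X)} := by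
  have hcb := TopologicalSpace.countable_countableBasis X
  have e : {f : C(X, X) | NW (f : X → X)} = ⋂ (m : ℕ), ⋂ U ∈ TopologicalSpace.countableBasis X,
      {f : C(X, X) | 1 ≤ m → ∃ j : ℕ, 1 ≤ j ∧ ((f : X → X)^[m * j] '' U ∩ U).Nonempty} := by
    ext f
    simp only [mem_ofPred_eq, mem_iInter]
    constructor
    · intro h m U hU hm
      exact h m hm U (TopologicalSpace.isOpen_of_mem_countableBasis hU)
        (TopologicalSpace.nonempty_of_mem_countableBasis hU)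
    · intro h m hm U hU hne
      obtain ⟨x, hx⟩ := hne
      obtain ⟨V, hV, hxV, hVU⟩ := (TopologicalSpace.isBasis_countableBasis X).exists_subset_of_mem_open
        hx hU
      obtain ⟨j, hj, y, ⟨u, hu, huy⟩, hy⟩ := h m V hV hm
      exact ⟨j, hj, y, ⟨u, hVU hu, huy⟩, hVU hy⟩
  rw [e]
  refine IsGδ.iInter fun m => IsGδ.biInter hcb fun U hU => ?_
  by_cases hm : 1 ≤ m
  · have e2 : {f : C(X, X) | 1 ≤ m → ∃ j : ℕ, 1 ≤ j ∧ ((f : X → X)^[m * j] '' U ∩ U).Nonempty}
        = ⋃ (j : ℕ), ⋃ (x : X), {f : C(X, X) | (1 ≤ j ∧ x ∈ U) ∧ (f : X → X)^[m * j] x ∈ U} := by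
      ext f
      simp only [mem_ofPred_eq, mem_iUnion]
      constructor
      · intro h
        obtain ⟨j, hj, y, ⟨u, hu, huy⟩, hy⟩ := h hm
        exact ⟨j, u, ⟨hj, hu⟩, by rw [huy]; exact hy⟩
      · rintro ⟨j, x, ⟨hj, hx⟩, hxU⟩ -
        exact ⟨j, hj, _, ⟨x, hx, rfl⟩, hxU⟩
    rw [e2]
    refine (isOpen_iUnion fun j => isOpen_iUnion fun x => ?_).isGδ
    refine isOpen_const.and ?_
    have h1 : Continuous (fun g : C(X, X) => (g : X → X)^[m * j] x) :=
      (X_measurableSet_PP.pp_cont (m * j)).comp (by fun_prop : Continuous fun g : C(X, X) => (g, x))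
    exact (TopologicalSpace.isOpen_of_mem_countableBasis hU).preimage h1
  · have e3 : {f : C(X, X) | 1 ≤ m → ∃ j : ℕ, 1 ≤ j ∧ ((f : X → X)^[m * j] '' U ∩ U).Nonempty}
        = univ := by
      ext f
      simp [hm]
    rw [e3]
    exact IsGδ.univ

theorem isGδ_NF {X : Type} [MetricSpace X] [CompactSpace X] :
    IsGδ {f : C(X, X) | NF (f : X → X)} := by
  have hcb := TopologicalSpace.countable_countableBasis X
  have e : {f : C(X, X) | NF (f : X → X)} = ⋂ (m : ℕ), ⋂ U ∈ TopologicalSpace.countableBasis X,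
      {f : C(X, X) | 1 ≤ m → ∃ x ∈ U, (f : X → X)^[m] x ≠ x} := by
    ext f
    simp only [mem_ofPred_eq, mem_iInter, NF]
    constructor
    · intro h m U hU hm
      by_contra hcon
      push Not at hcon
      obtain ⟨x, hx⟩ := TopologicalSpace.nonempty_of_mem_countableBasis hU
      have hsub : U ⊆ interior {x | (f : X → X)^[m] x = x} :=
        interior_maximal (fun x hx => hcon x hx) (TopologicalSpace.isOpen_of_mem_countableBasis hU)
      rw [h m hm] at hsub
      exact hsub hx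
    · intro h m hm
      by_contra hcon
      obtain ⟨x, hx⟩ := Set.nonempty_iff_ne_empty.2 hcon
      obtain ⟨V, hV, hxV, hVU⟩ := (TopologicalSpace.isBasis_countableBasis X).exists_subset_of_mem_open
        hx isOpen_interior
      obtain ⟨y, hy, hne⟩ := h m V hV hm
      have h5 := interior_subset (s := {x | (f : X → X)^[m] x = x}) (hVU hy)
      exact hne h5
  rw [e]
  refine IsGδ.iInter fun m => IsGδ.biInter hcb fun U hU => ?_
  by_cases hm : 1 ≤ m
  · have e2 : {f : C(X, X) | 1 ≤ m → ∃ x ∈ U, (f : X → X)^[m] x ≠ x}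
        = ⋃ x ∈ U, {f : C(X, X) | (f : X → X)^[m] x ≠ x} := by
      ext f
      simp only [mem_ofPred_eq, mem_iUnion, hm, true_imp_iff, exists_prop]
    rw [e2]
    refine (isOpen_biUnion fun x _ => ?_).isGδ
    have h1 : Continuous (fun g : C(X, X) => (g : X → X)^[m] x) :=
      (X_measurableSet_PP.pp_cont m).comp (by fun_prop : Continuous fun g : C(X, X) => (g, x))
    exact isOpen_ne_fun h1 continuous_const
  · have e3 : {f : C(X, X) | 1 ≤ m → ∃ x ∈ U, (f : X → X)^[m] x ≠ x} = univ := by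
      ext f
      simp [hm]
    rw [e3]
    exact IsGδ.univ

theorem cross_circle (p q r s : ℝ) (h1 : p < q) (h2 : q < r) (h3 : r < s) (h4 : s < p + 1) :
    ((p : Circ), (q : Circ), (r : Circ), (s : Circ)) ∈ CrossSet Circ := by
  have hO : IsOpen {z : ℝ × ℝ × ℝ × ℝ | z.1 < z.2.1 ∧ z.2.1 < z.2.2.1 ∧ z.2.2.1 < z.2.2.2 ∧
      z.2.2.2 < z.1 + 1} := by
    refine (isOpen_lt (by fun_prop) (by fun_prop)).and ((isOpen_lt (by fun_prop) (by fun_prop)).and
      ((isOpen_lt (by fun_prop) (by fun_prop)).and (isOpen_lt (by fun_prop) (by fun_prop))))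
  have hm : IsOpenMap (fun x : ℝ => (x : Circ)) := QuotientAddGroup.isOpenMap_coe
  have hmm : IsOpenMap (Prod.map (fun x : ℝ => (x : Circ)) (Prod.map (fun x : ℝ => (x : Circ))
      (Prod.map (fun x : ℝ => (x : Circ)) (fun x : ℝ => (x : Circ))))) :=
    hm.prodMap (hm.prodMap (hm.prodMap hm))
  refine interior_maximal ?_ (hmm _ hO) ⟨(p, q, r, s), ⟨h1, h2, h3, h4⟩, rfl⟩
  rintro _ ⟨⟨p, q, r, s⟩, ⟨h1, h2, h3, h4⟩, rfl⟩ C C' hC hC' hp hr hq hs
  simp only [Prod.map_apply] at h1 h2 h3 h4 hp hr hq hs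
  by_contra hne
  rw [Set.not_nonempty_iff_eq_empty] at hne
  have hqC : (q : Circ) ∉ C := fun h => by
    have : (q : Circ) ∈ C ∩ C' := ⟨h, hq⟩
    rw [hne] at this
    exact this
  have hsC : (s : Circ) ∉ C := fun h => by
    have : (s : Circ) ∈ C ∩ C' := ⟨h, hs⟩
    rw [hne] at this
    exact this
  have hcov : C ⊆ ((fun x : ℝ => (x : Circ)) '' Ioo q s) ∪ ((fun x : ℝ => (x : Circ)) '' Ioo s (q + 1)) := by
    intro z hz
    obtain ⟨t, ht, rfl⟩ : ∃ t ∈ Ico q (q + 1), (t : Circ) = z := by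
      have hh : z ∈ ((↑) : ℝ → AddCircle (1 : ℝ)) '' Ico q (q + 1) := by
        have : Fact ((0 : ℝ) < 1) := ⟨one_pos⟩
        rw [AddCircle.coe_image_Ico_eq]
        exact mem_univ _
      exact hh
    have ht1 : t ≠ q := by
      rintro rfl
      exact hqC hz
    have ht2 : t ≠ s := by
      rintro rfl
      exact hsC hz
    rcases lt_or_gt_of_ne ht2 with h | h
    · exact Or.inl ⟨t, ⟨lt_of_le_of_ne ht.1 (Ne.symm ht1), h⟩, rfl⟩
    · exact Or.inr ⟨t, ⟨h, ht.2⟩, rfl⟩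
  obtain ⟨z, hzC, ⟨x, hx, hxz⟩, ⟨y, hy, hyz⟩⟩ := hC _ _ (hm _ isOpen_Ioo) (hm _ isOpen_Ioo) hcov
    ⟨_, hr, r, ⟨h2, h3⟩, rfl⟩ ⟨_, hp, p + 1, ⟨by linarith, by linarith⟩, by
      show ((p + 1 : ℝ) : Circ) = (p : Circ)
      exact AddCircle.coe_add_period 1 p⟩
  obtain ⟨k, hk⟩ := (X_caseI_exceptional.cpe_coe_eq_iff x y).1 (hxz.trans hyz.symm)
  have e1 : (k : ℝ) < 0 := by linarith [hx.2, hy.1]
  have e2 : (-1 : ℝ) < k := by linarith [hx.1, hy.2]
  have e3 : k < (0 : ℤ) := by exact_mod_cast e1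
  have e4 : (-1 : ℤ) < k := by exact_mod_cast e2
  omega

theorem arc_interior (a b : ℝ) (hab : a < b) :
    (interior ((fun x : ℝ => (x : Circ)) '' Icc a b)).Nonempty := by
  refine ⟨(((a + b) / 2 : ℝ) : Circ), ?_⟩
  have ho : IsOpen ((fun x : ℝ => (x : Circ)) '' Ioo a b) :=
    QuotientAddGroup.isOpenMap_coe _ isOpen_Ioo
  refine interior_maximal (image_mono Ioo_subset_Icc_self) ho ?_
  exact ⟨(a + b) / 2, ⟨by linarith, by linarith⟩, rfl⟩

theorem XC_of_HP (f : Circ → Circ) (W : Set Circ) (hW : HP f W) (hne : W.Nonempty) : XC f := by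
  obtain ⟨w, hw⟩ := hne
  obtain ⟨t, rfl⟩ : ∃ t : ℝ, (t : Circ) = w := QuotientAddGroup.mk_surjective w
  have hcont : Continuous (fun x : ℝ => (x : Circ)) := AddCircle.continuous_mk' 1
  have hpre : (fun x : ℝ => (x : Circ)) ⁻¹' W ∈ 𝓝 t := (hW.1.preimage hcont).mem_nhds hw
  obtain ⟨r, hr, hball⟩ := Metric.mem_nhds_iff.1 hpre
  obtain ⟨ρ, hρ, hρ1, hρ2⟩ : ∃ ρ : ℝ, 0 < ρ ∧ 3 * ρ < r ∧ 3 * ρ < 1 := by
    refine ⟨min r 1 / 4, by positivity, ?_, ?_⟩
    · have := min_le_left r 1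
      linarith
    · have := min_le_right r 1
      linarith
  have hsub : ∀ x, t ≤ x → x ≤ t + 3 * ρ → (x : Circ) ∈ W := by
    intro x hx1 hx2
    apply hball
    rw [Metric.mem_ball, Real.dist_eq, abs_lt]
    constructor <;> linarith
  obtain ⟨m, -, hU, hV⟩ := hW.2 ((fun x : ℝ => (x : Circ)) '' Icc t (t + ρ))
    ((fun x : ℝ => (x : Circ)) '' Icc (t + 2 * ρ) (t + 3 * ρ))
    (isCompact_Icc.image hcont) (isCompact_Icc.image hcont) (arc_interior _ _ (by linarith))
    (arc_interior _ _ (by linarith))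
    (by rintro _ ⟨x, hx, rfl⟩; exact hsub x hx.1 (by linarith [hx.2]))
    (by rintro _ ⟨x, hx, rfl⟩; exact hsub x (by linarith [hx.1]) hx.2)
  have hin : ∀ x, t ≤ x → x ≤ t + ρ → (x : Circ) ∈ ((fun x : ℝ => (x : Circ)) '' Icc t (t + ρ)) ∪
      ((fun x : ℝ => (x : Circ)) '' Icc (t + 2 * ρ) (t + 3 * ρ)) :=
    fun x h1 h2 => Or.inl ⟨x, ⟨h1, h2⟩, rfl⟩
  obtain ⟨a, ha, hae⟩ := hU (hin t le_rfl (by linarith))
  obtain ⟨a', ha', hae'⟩ := hU (hin (t + 2 * ρ / 3) (by linarith) (by linarith))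
  obtain ⟨b, hb, hbe⟩ := hV (hin (t + ρ / 3) (by linarith) (by linarith))
  obtain ⟨b', hb', hbe'⟩ := hV (hin (t + ρ) (by linarith) le_rfl)
  refine ⟨m, _, _, a, a', b, b', (isPreconnected_Icc.image _ hcont.continuousOn),
    (isPreconnected_Icc.image _ hcont.continuousOn), ?_, ha, ha', hb, hb', ?_⟩
  · rw [Set.disjoint_left]
    rintro _ ⟨x, hx, rfl⟩ ⟨y, hy, hyx⟩
    obtain ⟨k, hk⟩ := (X_caseI_exceptional.cpe_coe_eq_iff y x).1 hyx
    have e1 : (0 : ℝ) < k := by linarith [hx.2, hy.1]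
    have e2 : (k : ℝ) < 1 := by linarith [hx.1, hy.2]
    have e3 : (0 : ℤ) < k := by exact_mod_cast e1
    have e4 : k < (1 : ℤ) := by exact_mod_cast e2
    omega
  · rw [hae, hae', hbe, hbe']
    exact cross_circle _ _ _ _ (by linarith) (by linarith) (by linarith) (by linarith)

/-- A circle map without periodic points and with a dense orbit is injective. -/
theorem injective_of_no_periodic (f : Circ → Circ) (F : ℝ → ℝ)
    (hF : Continuous F) (hFf : ∀ x : ℝ, ((F x : ℝ) : Circ) = f (x : Circ)) (x0 : Circ)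
    (hx0 : Dense (range fun n : ℕ => f^[n] x0))
    (hcon : ∀ (M : ℕ) (p : Circ), 1 ≤ M → f^[M] p ≠ p) : Function.Injective f := by
  have hF1 : ∀ x, F (x + 1) = F x + 1 :=
    X_exists_periodic.EP_deg f F hF hFf (fun p hp => hcon 1 p le_rfl hp)
  have hnp : ∀ (k : ℕ) (q : ℤ) (x : ℝ), 1 ≤ k → F^[k] x ≠ x + q := by
    intro k q x hk hx
    apply hcon k (x : Circ) hk
    rw [← X_exists_periodic.EP_iter f F hFf, hx, X_exists_periodic.EP_coe_add_int]
  obtain ⟨ρ, hρ⟩ := exists_rho F hF hF1 hnp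
  obtain ⟨x, rfl⟩ := QuotientAddGroup.mk_surjective x0
  have hdense : Dense {t : ℝ | ∃ (N : ℕ) (p : ℤ), t = F^[N] x + p} := by
    have h1 : {t : ℝ | ∃ (N : ℕ) (p : ℤ), t = F^[N] x + p}
        = (fun t : ℝ => (t : Circ)) ⁻¹' (range fun n : ℕ => f^[n] (x : Circ)) := by
      ext t
      constructor
      · rintro ⟨N, p, rfl⟩
        refine ⟨N, ?_⟩
        show f^[N] (x : Circ) = ((F^[N] x + p : ℝ) : Circ)
        rw [X_exists_periodic.EP_coe_add_int, X_exists_periodic.EP_iter f F hFf]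
      · rintro ⟨N, hN⟩
        have h2 : ((t : ℝ) : Circ) = ((F^[N] x : ℝ) : Circ) := by
          rw [X_exists_periodic.EP_iter f F hFf]
          exact hN.symm
        obtain ⟨p, hp⟩ := X_exists_periodic.EP_coe_eq h2
        exact ⟨N, p, hp⟩
    rw [h1]
    exact hx0.preimage QuotientAddGroup.isOpenMap_coe
  have hD : ∀ (N N' : ℕ) (p p' : ℤ), F^[N] x + p < F^[N'] x + p' →
      F (F^[N] x + p) < F (F^[N'] x + p') := by
    intro N N' p p' hlt
    have hle := X_exists_H.eH_order F ρ hρ hnp x N' N p' p hlt.le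
    have hne : (N : ℝ) * ρ + p ≠ N' * ρ + p' := by
      intro he
      rcases lt_trichotomy N N' with h | h | h
      · obtain ⟨k, rfl⟩ : ∃ k, N' = k + N := ⟨N' - N, by omega⟩
        have := (hρ k (p - p') 0 (by omega)).2
        apply this
        push_cast at he ⊢
        linarith
      · subst h
        have h5 : (p : ℝ) = p' := by linarith
        rw [h5] at hlt
        exact lt_irrefl _ hlt
      · obtain ⟨k, rfl⟩ : ∃ k, N = k + N' := ⟨N - N', by omega⟩
        have := (hρ k (p' - p) 0 (by omega)).2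
        apply this
        push_cast at he ⊢
        linarith
    have hlt2 : (N : ℝ) * ρ + p < N' * ρ + p' := lt_of_le_of_ne hle hne
    rw [X_exists_H.eH_int F hF1, X_exists_H.eH_int F hF1, ← Function.iterate_succ_apply' F,
      ← Function.iterate_succ_apply' F]
    by_contra hge
    push Not at hge
    have h6 := X_exists_H.eH_order F ρ hρ hnp x _ _ p p' hge
    push_cast at h6
    linarith
  have hmono : Monotone F := by
    intro a b hab
    rcases hab.eq_or_lt with rfl | hlt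
    · exact le_rfl
    · by_contra hcon2
      push Not at hcon2
      -- choose near `a` and `b` points of the dense set
      obtain ⟨c, hc1, hc2⟩ := exists_between hcon2
      obtain ⟨m, hm1, hm2⟩ := exists_between hlt
      have hUo : IsOpen (F ⁻¹' Ioi c ∩ Iio m) := (isOpen_Ioi.preimage hF).inter isOpen_Iio
      have hVo : IsOpen (F ⁻¹' Iio c ∩ Ioi m) := (isOpen_Iio.preimage hF).inter isOpen_Ioi
      obtain ⟨_, ⟨hs1, hs2⟩, N, p, rfl⟩ := hdense.inter_open_nonempty _ hUo ⟨a, hc2, hm1⟩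
      obtain ⟨_, ⟨ht1, ht2⟩, N', p', rfl⟩ := hdense.inter_open_nonempty _ hVo ⟨b, hc1, hm2⟩
      have h7 := hD N N' p p' (lt_trans hs2 ht2)
      exact absurd (lt_trans (lt_trans h7 ht1) hs1) (lt_irrefl _)
  have hstrict : StrictMono F := by
    intro a b hab
    obtain ⟨m, hm1, hm2⟩ := exists_between hab
    obtain ⟨_, ⟨hs1, hs2⟩, N, p, rfl⟩ := hdense.inter_open_nonempty _ isOpen_Ioo
      (nonempty_Ioo.2 hm1)
    obtain ⟨_, ⟨ht1, ht2⟩, N', p', rfl⟩ := hdense.inter_open_nonempty _ isOpen_Ioo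
      (nonempty_Ioo.2 hm2)
    exact lt_of_le_of_lt (hmono hs1.le) (lt_of_lt_of_le (hD N N' p p' (lt_trans hs2 ht1))
      (hmono ht2.le))
  intro y z hyz
  obtain ⟨y, rfl⟩ := QuotientAddGroup.mk_surjective y
  obtain ⟨z, rfl⟩ := QuotientAddGroup.mk_surjective z
  have h8 : ((F y : ℝ) : Circ) = ((F z : ℝ) : Circ) := by
    rw [hFf, hFf]
    exact hyz
  obtain ⟨k, hk⟩ := X_exists_periodic.EP_coe_eq h8
  rw [← X_exists_H.eH_int F hF1] at hk
  have := hstrict.injective hk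
  rw [this]
  exact X_exists_periodic.EP_coe_add_int z k

theorem caseI' (f : Circ → Circ) (hf : Continuous f) (hinj : ¬ Function.Injective f)
    (hNW : NW f) (hLt : Lt f)
    (F : ℝ → ℝ) (hF : Continuous F) (hFf : ∀ x : ℝ, ((F x : ℝ) : Circ) = f (x : Circ))
    (hNA : NoArc f) :
    ∃ S : Set (Set Circ), S.Finite ∧ (∀ W ∈ S, HP f W) ∧ Dense (⋃₀ S) := by
  obtain ⟨x0, hx0⟩ := dense_orbit f hf hNW hNA
  obtain ⟨M, p, hM, hp⟩ : ∃ (M : ℕ) (p : Circ), 1 ≤ M ∧ f^[M] p = p := by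
    by_contra hcon
    push Not at hcon
    exact hinj (injective_of_no_periodic f F hF hFf x0 hx0 (fun M p hM => hcon M p hM))
  by_cases hex : ∀ x, f^[M] x = p → x = p
  · exact caseI_exceptional f hf hNW hNA F hF hFf M hM p hp hex
  · push Not at hex
    obtain ⟨q, hq, hqp⟩ := hex
    exact caseI_nonexceptional f hf hNW hLt hNA M hM p q hp hq hqp

theorem caseII' (f : Circ → Circ) (hf : Continuous f) (hNF : NF f) (hNW : NW f) (hLt : Lt f)
    (F : ℝ → ℝ) (hF : ContDiff ℝ 1 F) (hFf : ∀ x : ℝ, ((F x : ℝ) : Circ) = f (x : Circ))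
    (hNA : ¬ NoArc f) :
    ∃ S : Set (Set Circ), S.Finite ∧ (∀ W ∈ S, HP f W) ∧ Dense (⋃₀ S) := by
  obtain ⟨M, G1, G2, a, b, hM, hab, hba, hG1, hG2, hG1f, hG2f, hm1, hm2, he1, he2⟩ :=
    caseII_data f hf hNW F hF hFf hNA
  obtain ⟨S1, hS1f, hS1, hc1⟩ := arc_blocks f hNW hLt G1 hG1 M hM hG1f a b hab (by linarith)
    hm1 he1
  obtain ⟨S2, hS2f, hS2, hc2⟩ := arc_blocks f hNW hLt G2 hG2 M hM hG2f b (a + 1) (by linarith)
    (by linarith) hm2 he2
  have : Fact ((0 : ℝ) < 1) := ⟨one_pos⟩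
  have hSf : (S1 ∪ S2).Finite := hS1f.union hS2f
  refine ⟨(fun p : ℝ × ℝ => (fun x : ℝ => (x : Circ)) '' Ioo p.1 p.2) '' (S1 ∪ S2),
    hSf.image _, ?_, ?_⟩
  · rintro W ⟨p, hp | hp, rfl⟩
    · exact (hS1 p hp).2.2.2
    · exact (hS2 p hp).2.2.2
  · rw [dense_iff_inter_open]
    intro V hV hVne
    obtain ⟨E, hEdef⟩ : ∃ E : Set Circ, E = ((fun p : ℝ × ℝ => (p.1 : Circ)) '' (S1 ∪ S2)) ∪
      ((fun p : ℝ × ℝ => (p.2 : Circ)) '' (S1 ∪ S2)) := ⟨_, rfl⟩
    have hEf : E.Finite := by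
      rw [hEdef]
      exact (hSf.image _).union (hSf.image _)
    have hVE : IsOpen (V \ E) := hV.sdiff hEf.isClosed
    have hVEne : (V \ E).Nonempty := ((circ_open_infinite V hV hVne).sdiff hEf).nonempty
    have hint := hNF M hM
    obtain ⟨v, hv, hvM⟩ : ∃ v ∈ V \ E, f^[M] v ≠ v := by
      by_contra hcon
      push Not at hcon
      obtain ⟨v, hv⟩ := hVEne
      have hsub : V \ E ⊆ interior {x | f^[M] x = x} :=
        interior_maximal (fun x hx => hcon x hx) hVE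
      rw [hint] at hsub
      exact hsub hv
    have hvE : v ∉ E := hv.2
    obtain ⟨t, ht, rfl⟩ : ∃ t ∈ Ico a (a + 1), (t : Circ) = v := by
      have hh : v ∈ ((↑) : ℝ → AddCircle (1 : ℝ)) '' Ico a (a + 1) := by
        rw [AddCircle.coe_image_Ico_eq]
        exact mem_univ _
      exact hh
    have hfin : ∀ p ∈ S1 ∪ S2, t ∈ Icc p.1 p.2 →
        (V ∩ ⋃₀ ((fun p : ℝ × ℝ => (fun x : ℝ => (x : Circ)) '' Ioo p.1 p.2) '' (S1 ∪ S2))).Nonempty := by
      intro p hp htp
      have h1 : t ≠ p.1 := by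
        intro h1
        apply hvE
        rw [hEdef]
        exact Or.inl ⟨p, hp, by simp only [h1]⟩
      have h2 : t ≠ p.2 := by
        intro h2
        apply hvE
        rw [hEdef]
        exact Or.inr ⟨p, hp, by simp only [h2]⟩
      exact ⟨(t : Circ), hv.1, _, ⟨p, hp, rfl⟩, t,
        ⟨lt_of_le_of_ne htp.1 (Ne.symm h1), lt_of_le_of_ne htp.2 h2⟩, rfl⟩
    rcases le_total t b with htb | htb
    · rcases hc1 t ⟨ht.1, htb⟩ with h1 | ⟨p, hp, h1⟩
      · exact absurd (by rw [← hG1f t, h1]) hvM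
      · exact hfin p (Or.inl hp) h1
    · rcases hc2 t ⟨htb, ht.2.le⟩ with h1 | ⟨p, hp, h1⟩
      · exact absurd (by rw [← hG2f t, h1]) hvM
      · exact hfin p (Or.inr hp) h1

theorem nontriv_circ : Nontrivial Circ := by
  obtain ⟨x, _, y, _, hxy⟩ := (circ_open_infinite univ isOpen_univ univ_nonempty).nontrivial
  exact ⟨x, y, hxy⟩

/-- The blocks of a `C^1` circle map without wandering sets. -/
theorem blocks_of (f : Circ → Circ) (hf : Continuous f) (hNW : NW f) (hNF : NF f)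
    (hinj : ¬ Function.Injective f) (F : ℝ → ℝ)
    (hF : ContDiff ℝ 1 F) (hFf : ∀ x : ℝ, ((F x : ℝ) : Circ) = f (x : Circ)) :
    ∃ S : Set (Set Circ), S.Finite ∧ (∀ W ∈ S, HP f W) ∧ Dense (⋃₀ S) := by
  have hLt : Lt f := lt_of_nw f hf hNW circ_open_infinite
  by_cases hNA : NoArc f
  · exact caseI' f hf hinj hNW hLt F hF.continuous hFf hNA
  · exact caseII' f hf hNF hNW hLt F hF hFf hNA

theorem XC_of_blocks (f : Circ → Circ) (S : Set (Set Circ)) (hHP : ∀ W ∈ S, HP f W)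
    (hd : Dense (⋃₀ S)) : XC f := by
  obtain ⟨x, -, W, hW, hx⟩ := hd.inter_open_nonempty univ isOpen_univ univ_nonempty
  exact XC_of_HP f W (hHP W hW) ⟨x, hx⟩

theorem NW_conj {X Y : Type} [TopologicalSpace X] [TopologicalSpace Y] (e : X ≃ₜ Y)
    (f : X → X) (h : NW f) : NW (fun y => e (f (e.symm y))) := by
  intro m hm U hU hne
  obtain ⟨u, hu⟩ := hne
  obtain ⟨j, hj, z, ⟨x, hx, hxz⟩, hz⟩ := h m hm (e ⁻¹' U) (hU.preimage e.continuous)
    ⟨e.symm u, by simpa using hu⟩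
  refine ⟨j, hj, e z, ⟨e x, hx, ?_⟩, hz⟩
  rw [iter_conj, hxz]

theorem NF_conj {X Y : Type} [TopologicalSpace X] [TopologicalSpace Y] (e : X ≃ₜ Y)
    (f : X → X) (h : NF f) : NF (fun y => e (f (e.symm y))) := by
  intro M hM
  have h1 := h M hM
  have h2 : {y | (fun y => e (f (e.symm y)))^[M] y = y} = e.symm ⁻¹' {x | f^[M] x = x} := by
    ext y
    obtain ⟨x, rfl⟩ := e.surjective y
    show (fun y => e (f (e.symm y)))^[M] (e x) = e x ↔ f^[M] (e.symm (e x)) = e.symm (e x)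
    rw [iter_conj, e.symm_apply_apply]
    exact e.injective.eq_iff
  rw [h2, ← e.symm.preimage_interior, h1, preimage_empty]

theorem nf_of_cpe (f : Circ → Circ) (hf : Continuous f) (h : IsCPE f) : NF f := by
  have := nontriv_circ
  exact fun M hM => fix_interior_empty f hf h M hM

theorem nontriv_T1 : Nontrivial (T 1) := by
  have := nontriv_circ
  exact (Homeomorph.funUnique (Fin 1) Circ).toEquiv.nontrivial

/-- **Characterisation of completely positive entropy for `C^1` circle maps.** -/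
theorem cpe_iff (k : ℕ∞) (hk : 1 ≤ k) (f : T 1 → T 1) (hf : Continuous f) (hck : IsCk 1 k f) :
    (IsCPE f ↔ NW f ∧ NF f ∧ ¬ Function.Injective f) ∧
      (IsCPE f ↔ NW f ∧ NF f ∧ XC f) := by
  let e : T 1 ≃ₜ Circ := Homeomorph.funUnique (Fin 1) Circ
  have hf' : Continuous (fun x' : Circ => e (f (e.symm x'))) :=
    e.continuous.comp (hf.comp e.symm.continuous)
  obtain ⟨F, hF, hFf⟩ := hck
  have hF1 : ContDiff ℝ 1 F := hF.of_le (by exact_mod_cast hk)
  have hF2 : ContDiff ℝ 1 (fun t : ℝ => F (fun _ => t) 0) :=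
    (contDiff_apply ℝ ℝ (0 : Fin 1)).comp (hF1.comp (contDiff_pi.2 fun _ => contDiff_id))
  have hlift : ∀ x : ℝ, (((fun t : ℝ => F (fun _ => t) 0) x : ℝ) : Circ) = e (f (e.symm (x : Circ))) := by
    intro x
    exact congrFun (hFf (fun _ => x)) 0
  -- blocks give everything
  have hblocks : (∃ S : Set (Set Circ), S.Finite ∧
      (∀ W ∈ S, HP (fun x' : Circ => e (f (e.symm x'))) W) ∧ Dense (⋃₀ S)) → IsCPE f ∧ XC f := by
    rintro ⟨S, hS, hHP, hd⟩
    constructor
    · refine isCPE_of_PP f (PP_of_HP f ((fun W => e.symm '' W) '' S) (hS.image _) ?_ ?_)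
      · rintro _ ⟨W, hW, rfl⟩
        exact HP_conj e f W (hHP W hW)
      · have h1 : ⋃₀ ((fun W => e.symm '' W) '' S) = e.symm '' (⋃₀ S) := by
          rw [Set.image_sUnion]
        rw [h1]
        exact e.symm.surjective.denseRange.dense_image e.symm.continuous hd
    · exact XC_conj e f (XC_of_blocks _ S hHP hd)
  have h12 : IsCPE f → NW f ∧ NF f := by
    intro h
    have := nontriv_T1
    exact ⟨nw_of_cpe f hf h, fun M hM => fix_interior_empty f hf h M hM⟩
  have h3 : IsCPE f → XC f := by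
    intro h
    have hcpe := isCPE_conj e f h
    exact (hblocks (thmC _ hf' hcpe _ hF2 hlift)).2
  have h4 : NW f ∧ NF f ∧ ¬ Function.Injective f → IsCPE f := by
    rintro ⟨h1, h2, h3⟩
    refine (hblocks (blocks_of _ hf' (NW_conj e f h1) (NF_conj e f h2) ?_ _ hF2 hlift)).1
    intro hi
    apply h3
    intro x y hxy
    have : e x = e y := by
      apply hi
      simp only [e.symm_apply_apply]
      rw [hxy]
    exact e.injective this
  refine ⟨⟨fun h => ⟨(h12 h).1, (h12 h).2, not_injective_of_XC f hf (h3 h)⟩, h4⟩,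
    ⟨fun h => ⟨(h12 h).1, (h12 h).2, h3 h⟩, fun h => h4 ⟨h.1, h.2.1,
      not_injective_of_XC f hf h.2.2⟩⟩⟩

/-- The Borel condition is `G_δ` in the uniform topology. -/
theorem isGδ_cond {X : Type} [MetricSpace X] [CompactSpace X] :
    IsGδ {f : C(X, X) | NW (f : X → X) ∧ NF (f : X → X) ∧ XC (f : X → X)} :=
  isGδ_NW.inter (isGδ_NF.inter isOpen_XC.isGδ)

end Pool.Agent.Y313.CP
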