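import Mathlib

open Set Filter Topology

namespace Pool.Agent.Y313.CP

/-- The basic smooth step, from `0` (for `r ≤ 0`) to `1` (for `1/4 ≤ r`). -/
noncomputable def st (r : ℝ) : ℝ := Real.smoothTransition (4 * r)

theorem st_contDiff : ContDiff ℝ ((⊤ : ℕ∞) : WithTop ℕ∞) st :=
  Real.smoothTransition.contDiff.comp (by fun_prop)

theorem st_zero {r : ℝ} (h : r ≤ 0) : st r = 0 :=
  Real.smoothTransition.zero_of_nonpos (by linarith)

theorem st_one {r : ℝ} (h : 1 / 4 ≤ r) : st r = 1 :=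
  Real.smoothTransition.one_of_one_le (by linarith)

theorem st_pos {r : ℝ} (h : 0 < r) : 0 < st r :=
  Real.smoothTransition.pos_of_pos (by linarith)

theorem st_nonneg (r : ℝ) : 0 ≤ st r := Real.smoothTransition.nonneg _

theorem st_le_one (r : ℝ) : st r ≤ 1 := Real.smoothTransition.le_one _

theorem st_mono : Monotone st := fun _ _ h =>
  Real.smoothTransition.monotone (by linarith)

theorem st_bound (k : ℕ) : ∃ B : ℝ, 0 ≤ B ∧ ∀ x, ‖iteratedFDeriv ℝ k st x‖ ≤ B := by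
  have hcont : Continuous (iteratedFDeriv ℝ k st) :=
    st_contDiff.continuous_iteratedFDeriv (by exact_mod_cast le_top)
  obtain ⟨B, hB⟩ := (isCompact_Icc (a := (-1 : ℝ)) (b := 1)).exists_bound_of_continuousOn
    hcont.continuousOn
  have hc : ∀ c x : ℝ, |c| ≤ 1 → ‖iteratedFDeriv ℝ k (fun _ : ℝ => c) x‖ ≤ 1 := by
    intro c x hc
    rcases Nat.eq_zero_or_pos k with rfl | hk
    · rw [norm_iteratedFDeriv_zero]
      exact hc
    · rw [iteratedFDeriv_const_of_ne (by omega)]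
      simp
  refine ⟨max B 1, le_max_of_le_right zero_le_one, fun x => ?_⟩
  rcases lt_or_ge x (-1) with h | h
  · have he : st =ᶠ[𝓝 x] fun _ => (0 : ℝ) := by
      filter_upwards [Iio_mem_nhds (show x < 0 by linarith)] with y hy
      exact st_zero (le_of_lt hy)
    rw [(Filter.EventuallyEq.iteratedFDeriv ℝ he k).eq_of_nhds]
    exact (hc 0 x (by norm_num)).trans (le_max_right _ _)
  · rcases lt_or_ge 1 x with h' | h'
    · have he : st =ᶠ[𝓝 x] fun _ => (1 : ℝ) := by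
        filter_upwards [Ioi_mem_nhds h'] with y hy
        exact st_one (by have : (1 : ℝ) < y := hy; linarith)
      rw [(Filter.EventuallyEq.iteratedFDeriv ℝ he k).eq_of_nhds]
      exact (hc 1 x (by norm_num)).trans (le_max_right _ _)
    · exact (hB x ⟨h, h'⟩).trans (le_max_left _ _)

/-- The term of index `m`, with weight `c`. -/
noncomputable def tm (c : ℝ) (m : ℕ) (r : ℝ) : ℝ :=
  (1 / 2 : ℝ) ^ (m + 1) * (c * st (r - 1 / ((m : ℝ) + 4)) + (1 - c) * st (r - 1 / 4))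

theorem tm_mono (c : ℝ) (h0 : 0 ≤ c) (h1 : c ≤ 1) (m : ℕ) : Monotone (tm c m) := by
  intro a b hab
  unfold tm
  have e1 := st_mono (show a - 1 / ((m : ℝ) + 4) ≤ b - 1 / ((m : ℝ) + 4) by linarith)
  have e2 := st_mono (show a - 1 / 4 ≤ b - 1 / 4 by linarith)
  refine mul_le_mul_of_nonneg_left ?_ (by positivity)
  have e3 := mul_le_mul_of_nonneg_left e1 h0
  have e4 := mul_le_mul_of_nonneg_left e2 (show 0 ≤ 1 - c by linarith)
  linarith

theorem tm_nonneg (c : ℝ) (h0 : 0 ≤ c) (h1 : c ≤ 1) (m : ℕ) (r : ℝ) : 0 ≤ tm c m r := by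
  unfold tm
  have e1 := st_nonneg (r - 1 / ((m : ℝ) + 4))
  have e2 := st_nonneg (r - 1 / 4)
  have e3 := mul_nonneg h0 e1
  have e4 := mul_nonneg (show 0 ≤ 1 - c by linarith) e2
  exact mul_nonneg (by positivity) (by linarith)

theorem tm_le (c : ℝ) (h0 : 0 ≤ c) (h1 : c ≤ 1) (m : ℕ) (r : ℝ) :
    tm c m r ≤ (1 / 2 : ℝ) ^ (m + 1) := by
  unfold tm
  have e1 := st_le_one (r - 1 / ((m : ℝ) + 4))
  have e2 := st_le_one (r - 1 / 4)
  have e3 := mul_le_mul_of_nonneg_left e1 h0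
  have e4 := mul_le_mul_of_nonneg_left e2 (show 0 ≤ 1 - c by linarith)
  have e5 : c * st (r - 1 / ((m : ℝ) + 4)) + (1 - c) * st (r - 1 / 4) ≤ 1 := by linarith
  have e6 : (0 : ℝ) ≤ (1 / 2 : ℝ) ^ (m + 1) := by positivity
  nlinarith

theorem frac_le (m : ℕ) : 1 / ((m : ℝ) + 4) ≤ 1 / 4 :=
  one_div_le_one_div_of_le (by norm_num) (by have : (0 : ℝ) ≤ m := Nat.cast_nonneg m; linarith)

theorem tm_zero (c : ℝ) (m : ℕ) (r : ℝ) (hr : r ≤ 0) : tm c m r = 0 := by
  unfold tm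
  rw [st_zero (by have : (0 : ℝ) < 1 / ((m : ℝ) + 4) := by positivity
                  linarith), st_zero (by linarith)]
  ring

theorem tm_one (c : ℝ) (m : ℕ) (r : ℝ) (hr : 1 / 2 ≤ r) : tm c m r = (1 / 2 : ℝ) ^ (m + 1) := by
  unfold tm
  rw [st_one (by have := frac_le m; linarith), st_one (by linarith)]
  ring

theorem sum_half : Summable (fun m : ℕ => (1 / 2 : ℝ) ^ (m + 1)) :=
  (summable_nat_add_iff 1).2 summable_geometric_two

theorem tsum_half : ∑' m : ℕ, (1 / 2 : ℝ) ^ (m + 1) = 1 := by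
  have h := tsum_geometric_two' (1 : ℝ)
  refine Eq.trans (tsum_congr fun m => ?_) h
  rw [pow_succ, one_div_pow]
  field_simp

theorem tm_summable (c : ℕ → ℝ) (h0 : ∀ m, 0 ≤ c m) (h1 : ∀ m, c m ≤ 1) (r : ℝ) :
    Summable (fun m => tm (c m) m r) :=
  Summable.of_nonneg_of_le (fun m => tm_nonneg _ (h0 m) (h1 m) m r)
    (fun m => tm_le _ (h0 m) (h1 m) m r) sum_half

theorem tm_contDiff (c : ℝ) (m : ℕ) : ContDiff ℝ ((⊤ : ℕ∞) : WithTop ℕ∞) (tm c m) := by
  unfold tm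
  have e1 : ContDiff ℝ ((⊤ : ℕ∞) : WithTop ℕ∞) (fun r : ℝ => st (r - 1 / ((m : ℝ) + 4))) :=
    st_contDiff.comp (by fun_prop)
  have e2 : ContDiff ℝ ((⊤ : ℕ∞) : WithTop ℕ∞) (fun r : ℝ => st (r - 1 / 4)) :=
    st_contDiff.comp (by fun_prop)
  exact contDiff_const.mul ((contDiff_const.mul e1).add (contDiff_const.mul e2))

theorem tm_deriv_bound (k : ℕ) (B : ℝ) (hB : ∀ x, ‖iteratedFDeriv ℝ k st x‖ ≤ B)
    (c : ℝ) (h0 : 0 ≤ c) (h1 : c ≤ 1) (m : ℕ) (r : ℝ) :
    ‖iteratedFDeriv ℝ k (tm c m) r‖ ≤ (1 / 2 : ℝ) ^ (m + 1) * B := by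
  have e1 : ContDiff ℝ ((⊤ : ℕ∞) : WithTop ℕ∞) (fun r : ℝ => st (r - 1 / ((m : ℝ) + 4))) :=
    st_contDiff.comp (by fun_prop)
  have e2 : ContDiff ℝ ((⊤ : ℕ∞) : WithTop ℕ∞) (fun r : ℝ => st (r - 1 / 4)) :=
    st_contDiff.comp (by fun_prop)
  have hk : (k : WithTop ℕ∞) ≤ ((⊤ : ℕ∞) : WithTop ℕ∞) := by exact_mod_cast le_top
  have e1' := e1.of_le hk
  have e2' := e2.of_le hk
  have he : tm c m = (fun x => ((1 / 2 : ℝ) ^ (m + 1) * c) • st (x - 1 / ((m : ℝ) + 4))) +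
      (fun x => ((1 / 2 : ℝ) ^ (m + 1) * (1 - c)) • st (x - 1 / 4)) := by
    funext x
    simp only [tm, Pi.add_apply, smul_eq_mul]
    ring
  have e1s : ContDiff ℝ k (fun x => ((1 / 2 : ℝ) ^ (m + 1) * c) • st (x - 1 / ((m : ℝ) + 4))) :=
    e1'.const_smul _
  have e2s : ContDiff ℝ k (fun x => ((1 / 2 : ℝ) ^ (m + 1) * (1 - c)) • st (x - 1 / 4)) :=
    e2'.const_smul _
  rw [he, iteratedFDeriv_add_apply e1s.contDiffAt e2s.contDiffAt, iteratedFDeriv_const_smul_apply' e1'.contDiffAt,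
    iteratedFDeriv_const_smul_apply' e2'.contDiffAt, iteratedFDeriv_comp_sub,
    iteratedFDeriv_comp_sub]
  refine (norm_add_le _ _).trans ?_
  rw [norm_smul, norm_smul, Real.norm_of_nonneg (by positivity),
    Real.norm_of_nonneg (mul_nonneg (by positivity) (by linarith))]
  have e3 := hB (r - 1 / ((m : ℝ) + 4))
  have e4 := hB (r - 1 / 4)
  have e5 : (0 : ℝ) ≤ (1 / 2 : ℝ) ^ (m + 1) := by positivity
  have e6 := mul_le_mul_of_nonneg_left e3 (mul_nonneg e5 h0)
  have e7 := mul_le_mul_of_nonneg_left e4 (mul_nonneg e5 (show 0 ≤ 1 - c by linarith))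
  calc _ ≤ (1 / 2 : ℝ) ^ (m + 1) * c * B + (1 / 2 : ℝ) ^ (m + 1) * (1 - c) * B := add_le_add e6 e7
    _ = (1 / 2 : ℝ) ^ (m + 1) * B := by ring

theorem exists_level {Z : Type} [MetricSpace Z] (O : Set Z) (hO : IsOpen O) :
    ∃ u : Z → ℝ, Continuous u ∧ (∀ z, 0 ≤ u z) ∧ (∀ z, u z ≤ 1) ∧ ∀ z, z ∈ O ↔ 0 < u z := by
  by_cases h : O = univ
  · subst h
    exact ⟨fun _ => 1, continuous_const, fun _ => zero_le_one, fun _ => le_rfl,
      fun z => ⟨fun _ => zero_lt_one, fun _ => mem_univ z⟩⟩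
  · have hne : (Oᶜ).Nonempty := by
      rw [Set.nonempty_compl]
      exact h
    refine ⟨fun z => min (Metric.infDist z Oᶜ) 1, (Metric.continuous_infDist_pt _).min
      continuous_const, fun z => le_min Metric.infDist_nonneg zero_le_one,
      fun z => min_le_right _ _, fun z => ?_⟩
    rw [lt_min_iff]
    constructor
    · intro hz
      refine ⟨?_, zero_lt_one⟩
      rw [← hO.isClosed_compl.notMem_iff_infDist_pos hne]
      exact fun h => h hz
    · rintro ⟨hz, -⟩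
      rw [← hO.isClosed_compl.notMem_iff_infDist_pos hne] at hz
      by_contra hcon
      exact hz hcon

/-- The family of steps attached to a `G_δ` set. -/
theorem exists_omega {Z : Type} [MetricSpace Z] (A : Set Z) (hA : IsGδ A) :
    ∃ ω : Z → ℝ → ℝ, Continuous (fun p : Z × ℝ => ω p.1 p.2) ∧
      (∀ z, ContDiff ℝ ((⊤ : ℕ∞) : WithTop ℕ∞) (ω z)) ∧ (∀ z, Monotone (ω z)) ∧
      (∀ z r, r ≤ 0 → ω z r = 0) ∧ (∀ z r, 1 / 2 ≤ r → ω z r = 1) ∧
      (∀ z ∈ A, ∀ r, 0 < r → 0 < ω z r) ∧ ∀ z, z ∉ A → ∃ r0 : ℝ, 0 < r0 ∧ ω z r0 = 0 := by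
  obtain ⟨O, hO, rfl⟩ := isGδ_iff_eq_iInter_nat.1 hA
  choose u hu hu0 hu1 huO using fun n => exists_level (O n) (hO n)
  obtain ⟨c, hcdef⟩ : ∃ c : Z → ℕ → ℝ, c = fun z m => ∏ i ∈ Finset.range (m + 1), u i z := ⟨_, rfl⟩
  have hc0 : ∀ z m, 0 ≤ c z m := by
    intro z m
    rw [hcdef]
    exact Finset.prod_nonneg fun i _ => hu0 i z
  have hc1 : ∀ z m, c z m ≤ 1 := by
    intro z m
    rw [hcdef]
    exact Finset.prod_le_one (fun i _ => hu0 i z) fun i _ => hu1 i z
  have hcc : ∀ m, Continuous (fun z => c z m) := by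
    intro m
    rw [hcdef]
    exact continuous_finsetProd _ fun i _ => hu i
  refine ⟨fun z r => ∑' m, tm (c z m) m r, ?_, ?_, ?_, ?_, ?_, ?_, ?_⟩
  · refine continuous_tsum (u := fun m : ℕ => (1 / 2 : ℝ) ^ (m + 1)) ?_ sum_half ?_
    · intro m
      unfold tm
      have h1 : Continuous (fun p : Z × ℝ => c p.1 m) := (hcc m).comp continuous_fst
      have h2 : Continuous (fun p : Z × ℝ => st (p.2 - 1 / ((m : ℝ) + 4))) :=
        st_contDiff.continuous.comp (by fun_prop)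
      have h3 : Continuous (fun p : Z × ℝ => st (p.2 - 1 / 4)) :=
        st_contDiff.continuous.comp (by fun_prop)
      exact continuous_const.mul ((h1.mul h2).add ((continuous_const.sub h1).mul h3))
    · intro m p
      rw [Real.norm_of_nonneg (tm_nonneg _ (hc0 _ _) (hc1 _ _) m _)]
      exact tm_le _ (hc0 _ _) (hc1 _ _) m _
  · intro z
    choose B hB0 hB using st_bound
    refine contDiff_tsum (v := fun k m => (1 / 2 : ℝ) ^ (m + 1) * B k) (fun m => tm_contDiff _ m)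
      (fun k _ => sum_half.mul_right (B k)) ?_
    intro k m x _
    exact tm_deriv_bound k (B k) (hB k) _ (hc0 z m) (hc1 z m) m x
  · intro z a b hab
    exact Summable.tsum_le_tsum (fun m => tm_mono _ (hc0 z m) (hc1 z m) m hab)
      (tm_summable _ (hc0 z) (hc1 z) a) (tm_summable _ (hc0 z) (hc1 z) b)
  · intro z r hr
    show ∑' m, tm (c z m) m r = 0
    rw [← tsum_zero (α := ℝ) (β := ℕ)]
    exact tsum_congr fun m => tm_zero _ m r hr
  · intro z r hr
    show ∑' m, tm (c z m) m r = 1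
    rw [← tsum_half]
    exact tsum_congr fun m => tm_one _ m r hr
  · intro z hz r hr
    obtain ⟨m, hm⟩ := exists_nat_one_div_lt hr
    have hcpos : 0 < c z m := by
      rw [hcdef]
      refine Finset.prod_pos fun i _ => ?_
      exact (huO i z).1 (mem_iInter.1 hz i)
    refine (tm_summable _ (hc0 z) (hc1 z) r).tsum_pos (fun m => tm_nonneg _ (hc0 z m) (hc1 z m) m r)
      m ?_
    unfold tm
    have e0 : 1 / ((m : ℝ) + 4) < r := by
      refine lt_of_le_of_lt ?_ hm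
      apply one_div_le_one_div_of_le (by positivity)
      linarith
    have e1 := st_pos (show 0 < r - 1 / ((m : ℝ) + 4) by linarith)
    have e2 := mul_nonneg (show 0 ≤ 1 - c z m by linarith [hc1 z m]) (st_nonneg (r - 1 / 4))
    have e3 := mul_pos hcpos e1
    exact mul_pos (by positivity) (by linarith)
  · intro z hz
    rw [mem_iInter] at hz
    push Not at hz
    obtain ⟨N, hN⟩ := hz
    have hN0 : u N z = 0 := by
      have h1 : ¬ 0 < u N z := fun h => hN ((huO N z).2 h)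
      exact le_antisymm (not_lt.1 h1) (hu0 N z)
    have hc : ∀ m, N ≤ m → c z m = 0 := by
      intro m hm
      rw [hcdef]
      exact Finset.prod_eq_zero (Finset.mem_range.2 (by omega)) hN0
    refine ⟨1 / ((N : ℝ) + 4), by positivity, ?_⟩
    show ∑' m, tm (c z m) m (1 / ((N : ℝ) + 4)) = 0
    rw [← tsum_zero (α := ℝ) (β := ℕ)]
    refine tsum_congr fun m => ?_
    have hlast : st (1 / ((N : ℝ) + 4) - 1 / 4) = 0 := st_zero (by have := frac_le N; linarith)
    unfold tm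
    rw [hlast]
    rcases Nat.lt_or_ge m N with h | h
    · rw [st_zero]
      · ring
      · have : 1 / ((N : ℝ) + 4) ≤ 1 / ((m : ℝ) + 4) := by
          apply one_div_le_one_div_of_le (by positivity)
          have : (m : ℝ) ≤ N := by exact_mod_cast h.le
          linarith
        linarith
    · rw [hc m h]
      ring

end Pool.Agent.Y313.CP
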