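import Mathlib
import Pool.Agent.Helper222.CPE.Base
import Pool.Agent.Y313.CP.Omega

open Set Filter Topology

namespace Pool.Agent.Y313.CP

open Pool.Agent.Helper222.CPE

/-- `cos (2 π x)` on the circle. -/
noncomputable def Cx (x : Circ) : ℝ := ((AddCircle.toCircle x : Circle) : ℂ).re

/-- `sin (2 π x)` on the circle. -/
noncomputable def Sx (x : Circ) : ℝ := ((AddCircle.toCircle x : Circle) : ℂ).im

theorem Cx_cont : Continuous Cx :=
  Complex.continuous_re.comp (continuous_subtype_val.comp AddCircle.continuous_toCircle)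

theorem Sx_cont : Continuous Sx :=
  Complex.continuous_im.comp (continuous_subtype_val.comp AddCircle.continuous_toCircle)

theorem Cx_coe (x : ℝ) : Cx (x : Circ) = Real.cos (2 * Real.pi * x) := by
  unfold Cx
  rw [AddCircle.toCircle_apply_mk, Circle.coe_exp]
  rw [Complex.exp_ofReal_mul_I_re]
  ring_nf

theorem Sx_coe (x : ℝ) : Sx (x : Circ) = Real.sin (2 * Real.pi * x) := by
  unfold Sx
  rw [AddCircle.toCircle_apply_mk, Circle.coe_exp]
  rw [Complex.exp_ofReal_mul_I_im]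
  ring_nf

/-- Numerator of the angular correction. -/
noncomputable def num (w : ℝ → ℝ) (C S : ℝ) : ℝ := S / 2 * ((1 - C) - w ((1 + C) / 2))

/-- Denominator of the angular correction. -/
noncomputable def den (w : ℝ → ℝ) (C : ℝ) : ℝ := w ((1 + C) / 2) * ((1 + C) / 2) - (1 - C) / 2 * C

/-- The angular correction. -/
noncomputable def Pr (w : ℝ → ℝ) (C S : ℝ) : ℝ := (1 / Real.pi) * Real.arctan (num w C S / den w C)

/-- The circle map attached to a step function `w`. -/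
noncomputable def fz (w : ℝ → ℝ) (x : Circ) : Circ := x + x + ((Pr w (Cx x) (Sx x) : ℝ) : Circ)

theorem den_pos (w : ℝ → ℝ) (h0 : ∀ r, 0 ≤ w r) (h1 : ∀ r, 1 / 2 ≤ r → w r = 1) (C : ℝ)
    (hC : C ∈ Icc (-1 : ℝ) 1) : 0 < den w C := by
  unfold den
  rcases le_or_gt 0 C with h | h
  · rw [h1 _ (by linarith)]
    nlinarith
  · have e1 := mul_nonneg (h0 ((1 + C) / 2)) (show 0 ≤ (1 + C) / 2 by linarith [hC.1])
    nlinarith [mul_pos (show 0 < 1 - C by linarith) (show 0 < -C by linarith)]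

theorem Cx_mem (x : Circ) : Cx x ∈ Icc (-1 : ℝ) 1 := by
  obtain ⟨t, rfl⟩ : ∃ t : ℝ, (t : Circ) = x := QuotientAddGroup.mk_surjective x
  rw [Cx_coe]
  exact ⟨Real.neg_one_le_cos _, Real.cos_le_one _⟩

theorem circ_eq_of_sin (a b : ℝ) (h : Real.sin (Real.pi * (a - b)) = 0) :
    ((a : ℝ) : Circ) = (b : Circ) := by
  obtain ⟨n, hn⟩ := Real.sin_eq_zero_iff.1 h
  have h1 : a = b + n := by
    have h2 : Real.pi * (a - b - n) = 0 := by linarith
    rcases mul_eq_zero.1 h2 with h3 | h3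
    · exact absurd h3 Real.pi_ne_zero
    · linarith
  rw [h1]
  have := AddCircle.coe_add (1 : ℝ) b n
  rw [this]
  have h3 : ((n : ℝ) : Circ) = 0 := by
    rw [AddCircle.coe_eq_zero_iff]
    exact ⟨n, by simp⟩
  rw [h3, add_zero]

/-- The chart `ℝ → circle`, missing only `0`. -/
noncomputable def pc (y : ℝ) : Circ := ((1 / 2 - Real.arctan y / Real.pi : ℝ) : Circ)

theorem pc_cont : Continuous pc := by
  unfold pc
  have h : Continuous (fun y : ℝ => 1 / 2 - Real.arctan y / Real.pi) :=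
    continuous_const.sub (Real.continuous_arctan.div_const _)
  exact (AddCircle.continuous_mk' (1 : ℝ)).comp h

theorem cos_two_arctan (y : ℝ) : Real.cos (2 * Real.arctan y) = (1 - y ^ 2) / (1 + y ^ 2) := by
  rw [Real.cos_two_mul, Real.cos_sq_arctan]
  have : (1 + y ^ 2) ≠ 0 := by positivity
  field_simp
  ring

theorem sin_two_arctan (y : ℝ) : Real.sin (2 * Real.arctan y) = 2 * y / (1 + y ^ 2) := by
  rw [Real.sin_two_mul, Real.sin_arctan, Real.cos_arctan]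
  have h0 : 0 ≤ 1 + y ^ 2 := by positivity
  have h1 : √(1 + y ^ 2) * √(1 + y ^ 2) = 1 + y ^ 2 := Real.mul_self_sqrt h0
  have h2 : √(1 + y ^ 2) ≠ 0 := by positivity
  have h3 : (1 + y ^ 2) ≠ 0 := by positivity
  rw [show 2 * (y / √(1 + y ^ 2)) * (1 / √(1 + y ^ 2)) = 2 * y / (√(1 + y ^ 2) * √(1 + y ^ 2)) by
    field_simp, h1]

theorem Cx_pc (y : ℝ) : Cx (pc y) = (y ^ 2 - 1) / (1 + y ^ 2) := by
  unfold pc
  rw [Cx_coe, show 2 * Real.pi * (1 / 2 - Real.arctan y / Real.pi) = Real.pi - 2 * Real.arctan y by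
    have := Real.pi_ne_zero
    field_simp, Real.cos_pi_sub, cos_two_arctan]
  ring

theorem Sx_pc (y : ℝ) : Sx (pc y) = 2 * y / (1 + y ^ 2) := by
  unfold pc
  rw [Sx_coe, show 2 * Real.pi * (1 / 2 - Real.arctan y / Real.pi) = Real.pi - 2 * Real.arctan y by
    have := Real.pi_ne_zero
    field_simp, Real.sin_pi_sub, sin_two_arctan]

theorem cos_comb (y q g : ℝ) (h : (1 - q * g) * (1 - y ^ 2) + 2 * y * (q + g) = 0) :
    Real.cos (Real.arctan q + Real.arctan g - 2 * Real.arctan y) = 0 := by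
  rw [Real.cos_sub, Real.cos_add, Real.sin_add, cos_two_arctan, sin_two_arctan,
    Real.sin_arctan, Real.cos_arctan, Real.sin_arctan, Real.cos_arctan]
  have h1 : √(1 + q ^ 2) ≠ 0 := by positivity
  have h2 : √(1 + g ^ 2) ≠ 0 := by positivity
  have h3 : (1 + y ^ 2) ≠ 0 := by positivity
  have h4 : (1 / √(1 + q ^ 2) * (1 / √(1 + g ^ 2)) - q / √(1 + q ^ 2) * (g / √(1 + g ^ 2))) *
      ((1 - y ^ 2) / (1 + y ^ 2)) +
      (q / √(1 + q ^ 2) * (1 / √(1 + g ^ 2)) + 1 / √(1 + q ^ 2) * (g / √(1 + g ^ 2))) *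
      (2 * y / (1 + y ^ 2)) =
      ((1 - q * g) * (1 - y ^ 2) + 2 * y * (q + g)) / (√(1 + q ^ 2) * √(1 + g ^ 2) * (1 + y ^ 2)) := by
    field_simp
  rw [h4, h, zero_div]

/-- The map in the chart. -/
noncomputable def gy (w : ℝ → ℝ) (y : ℝ) : ℝ := y - 1 / (y * w (y ^ 2 / (1 + y ^ 2)))

theorem half_C (y : ℝ) : (1 + (y ^ 2 - 1) / (1 + y ^ 2)) / 2 = y ^ 2 / (1 + y ^ 2) := by
  have h3 : (1 + y ^ 2) ≠ 0 := by positivity
  field_simp
  ring

theorem fz_pc_aux (w : ℝ → ℝ) (y : ℝ) : fz w (pc y) =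
    ((1 - 2 * Real.arctan y / Real.pi + (1 / Real.pi) * Real.arctan
      (num w ((y ^ 2 - 1) / (1 + y ^ 2)) (2 * y / (1 + y ^ 2)) / den w ((y ^ 2 - 1) / (1 + y ^ 2)))
      : ℝ) : Circ) := by
  unfold fz Pr
  rw [Cx_pc, Sx_pc]
  unfold pc
  rw [← AddCircle.coe_add, ← AddCircle.coe_add]
  ring_nf

theorem fz_pc (w : ℝ → ℝ) (h0 : ∀ r, 0 ≤ w r) (h1 : ∀ r, 1 / 2 ≤ r → w r = 1) (y : ℝ)
    (hy : y ≠ 0) (hw : w (y ^ 2 / (1 + y ^ 2)) ≠ 0) : fz w (pc y) = pc (gy w y) := by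
  rw [fz_pc_aux]
  unfold pc
  apply circ_eq_of_sin
  have hC : (y ^ 2 - 1) / (1 + y ^ 2) ∈ Icc (-1 : ℝ) 1 := by
    rw [← Cx_pc]
    exact Cx_mem _
  have hden := den_pos w h0 h1 _ hC
  obtain ⟨q, hq⟩ : ∃ q, q = num w ((y ^ 2 - 1) / (1 + y ^ 2)) (2 * y / (1 + y ^ 2)) /
    den w ((y ^ 2 - 1) / (1 + y ^ 2)) := ⟨_, rfl⟩
  rw [← hq]
  have e : Real.pi * (1 - 2 * Real.arctan y / Real.pi + 1 / Real.pi * Real.arctan q -
      (1 / 2 - Real.arctan (gy w y) / Real.pi)) =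
      (Real.arctan q + Real.arctan (gy w y) - 2 * Real.arctan y) + Real.pi / 2 := by
    have := Real.pi_ne_zero
    field_simp
    ring
  rw [e, Real.sin_add_pi_div_two]
  apply cos_comb
  have h3 : (1 + y ^ 2) ≠ 0 := by positivity
  have hq2 : q * den w ((y ^ 2 - 1) / (1 + y ^ 2)) =
      num w ((y ^ 2 - 1) / (1 + y ^ 2)) (2 * y / (1 + y ^ 2)) := by
    rw [hq]
    exact div_mul_cancel₀ _ hden.ne'
  unfold den num at hq2
  unfold den at hden
  rw [half_C] at hq2 hden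
  unfold gy
  obtain ⟨W, hW⟩ : ∃ W, W = w (y ^ 2 / (1 + y ^ 2)) := ⟨_, rfl⟩
  rw [← hW] at hq2 hw hden ⊢
  have hd2 : 0 < W * y ^ 2 * (1 + y ^ 2) + (1 - y ^ 2) := by
    have e5 : W * (y ^ 2 / (1 + y ^ 2)) - (1 - (y ^ 2 - 1) / (1 + y ^ 2)) / 2 *
        ((y ^ 2 - 1) / (1 + y ^ 2)) =
        (W * y ^ 2 * (1 + y ^ 2) + (1 - y ^ 2)) / (1 + y ^ 2) ^ 2 := by
      field_simp
      ring
    rw [e5] at hden
    by_contra hcon
    push Not at hcon
    have := div_nonpos_of_nonpos_of_nonneg hcon (show (0 : ℝ) ≤ (1 + y ^ 2) ^ 2 by positivity)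
    linarith
  have hq3 : q * (W * y ^ 2 * (1 + y ^ 2) + (1 - y ^ 2)) = y * (2 - W * (1 + y ^ 2)) := by
    have e6 : W * (y ^ 2 / (1 + y ^ 2)) - (1 - (y ^ 2 - 1) / (1 + y ^ 2)) / 2 *
        ((y ^ 2 - 1) / (1 + y ^ 2)) =
        (W * y ^ 2 * (1 + y ^ 2) + (1 - y ^ 2)) / (1 + y ^ 2) ^ 2 := by
      field_simp
      ring
    have e7 : 2 * y / (1 + y ^ 2) / 2 * (1 - (y ^ 2 - 1) / (1 + y ^ 2) - W) =
        (y * (2 - W * (1 + y ^ 2))) / (1 + y ^ 2) ^ 2 := by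
      field_simp
      ring
    rw [e6, e7, mul_div_assoc', div_left_inj' (by positivity)] at hq2
    exact hq2
  have hq4 : q = y * (2 - W * (1 + y ^ 2)) / (W * y ^ 2 * (1 + y ^ 2) + (1 - y ^ 2)) := by
    rw [eq_div_iff hd2.ne']
    exact hq3
  obtain ⟨D, hD⟩ : ∃ D, D = W * y ^ 2 * (1 + y ^ 2) + (1 - y ^ 2) := ⟨_, rfl⟩
  obtain ⟨N, hN⟩ : ∃ N, N = y * (2 - W * (1 + y ^ 2)) := ⟨_, rfl⟩
  rw [← hD, ← hN] at hq4
  rw [← hD] at hd2
  have hd3 := hd2.ne'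
  rw [hq4]
  have key : (D * (y * W) - N * (y ^ 2 * W - 1)) * (1 - y ^ 2) +
      2 * y * (N * (y * W) + (y ^ 2 * W - 1) * D) = 0 := by
    rw [hD, hN]
    ring
  have e9 : (1 - N / D * (y - 1 / (y * W))) * (1 - y ^ 2) + 2 * y * (N / D + (y - 1 / (y * W))) =
      ((D * (y * W) - N * (y ^ 2 * W - 1)) * (1 - y ^ 2) +
      2 * y * (N * (y * W) + (y ^ 2 * W - 1) * D)) / (D * (y * W)) := by
    field_simp
  rw [e9, key, zero_div]

theorem fz_pc_zero (w : ℝ → ℝ) (h0 : ∀ r, 0 ≤ w r) (h1 : ∀ r, 1 / 2 ≤ r → w r = 1) (y : ℝ)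
    (hw : w (y ^ 2 / (1 + y ^ 2)) = 0) : fz w (pc y) = 0 := by
  rw [fz_pc_aux, ← AddCircle.coe_zero]
  apply circ_eq_of_sin
  have hC : (y ^ 2 - 1) / (1 + y ^ 2) ∈ Icc (-1 : ℝ) 1 := by
    rw [← Cx_pc]
    exact Cx_mem _
  have hden := den_pos w h0 h1 _ hC
  obtain ⟨q, hq⟩ : ∃ q, q = num w ((y ^ 2 - 1) / (1 + y ^ 2)) (2 * y / (1 + y ^ 2)) /
    den w ((y ^ 2 - 1) / (1 + y ^ 2)) := ⟨_, rfl⟩
  rw [← hq]
  have h3 : (1 + y ^ 2) ≠ 0 := by positivity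
  have hq2 : q * den w ((y ^ 2 - 1) / (1 + y ^ 2)) =
      num w ((y ^ 2 - 1) / (1 + y ^ 2)) (2 * y / (1 + y ^ 2)) := by
    rw [hq]
    exact div_mul_cancel₀ _ hden.ne'
  unfold den num at hq2
  rw [half_C, hw] at hq2
  have hq3 : q * (1 - y ^ 2) = 2 * y := by
    have e6 : q * (0 * (y ^ 2 / (1 + y ^ 2)) - (1 - (y ^ 2 - 1) / (1 + y ^ 2)) / 2 *
        ((y ^ 2 - 1) / (1 + y ^ 2))) = (q * (1 - y ^ 2)) / (1 + y ^ 2) ^ 2 := by
      field_simp
      ring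
    have e7 : 2 * y / (1 + y ^ 2) / 2 * (1 - (y ^ 2 - 1) / (1 + y ^ 2) - 0) =
        (2 * y) / (1 + y ^ 2) ^ 2 := by
      field_simp
      ring
    rw [e6, e7, div_left_inj' (by positivity)] at hq2
    exact hq2
  have e : Real.pi * (1 - 2 * Real.arctan y / Real.pi + 1 / Real.pi * Real.arctan q - 0) =
      (Real.arctan q - 2 * Real.arctan y) + Real.pi := by
    have := Real.pi_ne_zero
    field_simp
    ring
  rw [e, Real.sin_add_pi, neg_eq_zero, Real.sin_sub, cos_two_arctan, sin_two_arctan,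
    Real.sin_arctan, Real.cos_arctan]
  have h1 : √(1 + q ^ 2) ≠ 0 := by positivity
  have h4 : q / √(1 + q ^ 2) * ((1 - y ^ 2) / (1 + y ^ 2)) - 1 / √(1 + q ^ 2) *
      (2 * y / (1 + y ^ 2)) = (q * (1 - y ^ 2) - 2 * y) / (√(1 + q ^ 2) * (1 + y ^ 2)) := by
    field_simp
  rw [h4, hq3, sub_self, zero_div]

theorem fz_zero (w : ℝ → ℝ) : fz w 0 = 0 := by
  have h1 : Cx (0 : Circ) = 1 := by
    rw [← AddCircle.coe_zero, Cx_coe]
    simp
  have h2 : Sx (0 : Circ) = 0 := by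
    rw [← AddCircle.coe_zero, Sx_coe]
    simp
  unfold fz Pr num
  rw [h1, h2]
  simp

theorem pc_surj (x : Circ) (hx : x ≠ 0) : ∃ y : ℝ, pc y = x := by
  obtain ⟨t, ht, rfl⟩ : ∃ t ∈ Ico (0 : ℝ) (0 + 1), (t : Circ) = x := by
    have hh : x ∈ ((↑) : ℝ → AddCircle (1 : ℝ)) '' Ico 0 (0 + 1) := by
      have : Fact ((0 : ℝ) < 1) := ⟨one_pos⟩
      rw [AddCircle.coe_image_Ico_eq]
      exact mem_univ _
    exact hh
  have ht0 : t ≠ 0 := by
    rintro rfl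
    exact hx (AddCircle.coe_zero _)
  have ht1 : 0 < t := lt_of_le_of_ne ht.1 (Ne.symm ht0)
  have ht2 : t < 1 := by linarith [ht.2]
  refine ⟨Real.tan (Real.pi * (1 / 2 - t)), ?_⟩
  unfold pc
  have hp := Real.pi_pos
  rw [Real.arctan_tan (by nlinarith) (by nlinarith)]
  have e : 1 / 2 - Real.pi * (1 / 2 - t) / Real.pi = t := by
    have := Real.pi_ne_zero
    field_simp
    ring
  rw [e]

theorem pc_neg (y : ℝ) : pc (-y) = -pc y := by
  unfold pc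
  rw [← AddCircle.coe_neg]
  apply circ_eq_of_sin
  rw [Real.arctan_neg]
  have e : Real.pi * (1 / 2 - -Real.arctan y / Real.pi - -(1 / 2 - Real.arctan y / Real.pi)) =
      Real.pi := by ring
  rw [e, Real.sin_pi]

theorem Cx_neg (x : Circ) : Cx (-x) = Cx x := by
  obtain ⟨t, rfl⟩ : ∃ t : ℝ, (t : Circ) = x := QuotientAddGroup.mk_surjective x
  rw [← AddCircle.coe_neg, Cx_coe, Cx_coe, mul_neg, Real.cos_neg]

theorem Sx_neg (x : Circ) : Sx (-x) = -Sx x := by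
  obtain ⟨t, rfl⟩ : ∃ t : ℝ, (t : Circ) = x := QuotientAddGroup.mk_surjective x
  rw [← AddCircle.coe_neg, Sx_coe, Sx_coe, mul_neg, Real.sin_neg]

theorem fz_neg (w : ℝ → ℝ) (x : Circ) : fz w (-x) = -fz w x := by
  unfold fz Pr
  rw [Cx_neg, Sx_neg]
  have e : num w (Cx x) (-Sx x) = -num w (Cx x) (Sx x) := by
    unfold num
    ring
  rw [e, neg_div, Real.arctan_neg, mul_neg, AddCircle.coe_neg]
  abel

end Pool.Agent.Y313.CP
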