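import Mathlib
import Pool.Agent.Helper222.CPE.Borel
import Pool.Agent.Helper222.CPE.Circle
import Pool.Agent.Y313.CP.Map

open Set Filter Topology

namespace Pool.Agent.Y313.CP

open Pool.Agent.Helper222.CPE

/-- A smooth-step profile which is positive on `(0, ∞)`. -/
structure GoodStep (w : ℝ → ℝ) : Prop where
  cont : Continuous w
  mono : Monotone w
  zero : ∀ r, r ≤ 0 → w r = 0
  one : ∀ r, 1 / 2 ≤ r → w r = 1
  pos : ∀ r, 0 < r → 0 < w r

namespace GoodStep

variable {w : ℝ → ℝ} (hw : GoodStep w)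

include hw

theorem nonneg (r : ℝ) : 0 ≤ w r := by
  rcases le_or_gt r 0 with h | h
  · rw [hw.zero r h]
  · exact (hw.pos r h).le

theorem le_one (r : ℝ) : w r ≤ 1 := by
  have h1 := hw.one (max r (1 / 2)) (le_max_right _ _)
  have h2 := hw.mono (le_max_left r (1 / 2))
  linarith

theorem W_pos (y : ℝ) (hy : y ≠ 0) : 0 < w (y ^ 2 / (1 + y ^ 2)) := by
  apply hw.pos
  positivity

theorem W_one (y : ℝ) (hy : 1 ≤ y ^ 2) : w (y ^ 2 / (1 + y ^ 2)) = 1 := by
  apply hw.one
  rw [div_le_div_iff₀ (by norm_num) (by positivity)]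
  linarith

theorem W_mono (a b : ℝ) (ha : 0 < a) (hab : a ≤ b) :
    w (a ^ 2 / (1 + a ^ 2)) ≤ w (b ^ 2 / (1 + b ^ 2)) := by
  apply hw.mono
  rw [div_le_div_iff₀ (by positivity) (by positivity)]
  nlinarith [mul_pos ha ha]

theorem gy_neg (y : ℝ) : gy w (-y) = -gy w y := by
  unfold gy
  rw [neg_sq, neg_mul, div_neg]
  ring

theorem gy_gap (a b : ℝ) (ha : 0 < a) (hab : a < b) :
    (b - a) * (1 + 1 / (a * b)) ≤ gy w b - gy w a := by
  have hb : 0 < b := ha.trans hab
  unfold gy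
  obtain ⟨u, hu⟩ : ∃ u, u = w (a ^ 2 / (1 + a ^ 2)) := ⟨_, rfl⟩
  obtain ⟨v, hv⟩ : ∃ v, v = w (b ^ 2 / (1 + b ^ 2)) := ⟨_, rfl⟩
  have hu0 : 0 < u := by rw [hu]; exact hw.W_pos a ha.ne'
  have hv0 : 0 < v := by rw [hv]; exact hw.W_pos b hb.ne'
  have huv : u ≤ v := by rw [hu, hv]; exact hw.W_mono a b ha hab.le
  have hv1 : v ≤ 1 := by rw [hv]; exact hw.le_one _
  rw [← hu, ← hv]
  have e1 : 1 / (a * u) ≥ 1 / (a * v) := one_div_le_one_div_of_le (by positivity) (by nlinarith)
  have e2 : 1 / (a * v) - 1 / (b * v) = (b - a) / (a * b) * (1 / v) := by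
    field_simp
  have e3 : 1 ≤ 1 / v := by
    rw [le_div_iff₀ hv0]
    linarith
  have e4 : 0 < (b - a) / (a * b) := div_pos (by linarith) (by positivity)
  have e5 : (b - a) / (a * b) ≤ (b - a) / (a * b) * (1 / v) := by nlinarith
  have e6 : (b - a) * (1 + 1 / (a * b)) = (b - a) + (b - a) / (a * b) := by ring
  rw [e6]
  linarith

theorem gy_gap' (a b : ℝ) (hab : a < b) (hs : 0 < a * b) :
    (b - a) * (1 + 1 / (a * b)) ≤ gy w b - gy w a := by
  rcases lt_or_ge 0 a with h | h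
  · exact hw.gy_gap a b h hab
  · have hb : b < 0 := by
      by_contra hcon
      push Not at hcon
      nlinarith
    have h1 := hw.gy_gap (-b) (-a) (by linarith) (by linarith)
    rw [hw.gy_neg, hw.gy_neg] at h1
    have e : (-a - -b) * (1 + 1 / (-b * -a)) = (b - a) * (1 + 1 / (a * b)) := by
      rw [neg_mul_neg, mul_comm b a]
      ring
    rw [e] at h1
    linarith

theorem gy_lt (a b : ℝ) (hab : a < b) (hs : 0 < a * b) : b - a < gy w b - gy w a := by
  have h := hw.gy_gap' a b hab hs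
  have e : 0 < (b - a) * (1 / (a * b)) := mul_pos (by linarith) (by positivity)
  nlinarith

theorem gy_big (y : ℝ) (hy : 1 ≤ y ^ 2) : gy w y = y - 1 / y := by
  unfold gy
  rw [hw.W_one y hy, mul_one]

theorem gy_small (y : ℝ) (h0 : 0 < y) (h1 : y < 1) : gy w y < 0 := by
  unfold gy
  have h2 := hw.W_pos y h0.ne'
  have h3 := hw.le_one (y ^ 2 / (1 + y ^ 2))
  rw [sub_neg, lt_div_iff₀ (by positivity)]
  nlinarith [mul_pos h0 h2, mul_pos h0 h0]

theorem gy_le (y : ℝ) (h0 : 0 < y) : gy w y ≤ y - 1 / y := by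
  unfold gy
  have h2 := hw.W_pos y h0.ne'
  have h3 := hw.le_one (y ^ 2 / (1 + y ^ 2))
  have : 1 / y ≤ 1 / (y * w (y ^ 2 / (1 + y ^ 2))) :=
    one_div_le_one_div_of_le (by positivity) (by nlinarith)
  linarith

theorem gy_cont (y : ℝ) (hy : y ≠ 0) : ContinuousAt (gy w) y := by
  unfold gy
  have h1 : Continuous (fun y : ℝ => w (y ^ 2 / (1 + y ^ 2))) :=
    hw.cont.comp ((continuous_pow 2).div (by fun_prop) (fun y => by positivity))
  refine continuousAt_id.sub (continuousAt_const.div (continuousAt_id.mul h1.continuousAt) ?_)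
  exact mul_ne_zero hy (hw.W_pos y hy).ne'

theorem gy_ivt (a b : ℝ) (hab : a ≤ b) (hs : 0 < a * b) :
    Icc (gy w a) (gy w b) ⊆ gy w '' Icc a b := by
  refine intermediate_value_Icc hab fun y hy => (hw.gy_cont y ?_).continuousWithinAt
  rintro rfl
  nlinarith [hy.1, hy.2]

theorem fz_pc' (y : ℝ) (hy : y ≠ 0) : fz w (pc y) = pc (gy w y) :=
  fz_pc w hw.nonneg hw.one y hy (hw.W_pos y hy).ne'

theorem fz_pc0 : fz w (pc 0) = 0 := by
  apply fz_pc_zero w hw.nonneg hw.one
  apply hw.zero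
  norm_num

end GoodStep

/-- Iterates of the arc over `[a,b]` fill a one-sided neighbourhood of `pc 0`. -/
def Reach (w : ℝ → ℝ) (a b : ℝ) : Prop :=
  ∃ (n : ℕ) (δ : ℝ), 0 < δ ∧ (pc '' Ioc 0 δ ⊆ (fz w)^[n] '' (pc '' Icc a b) ∨
    pc '' Ico (-δ) 0 ⊆ (fz w)^[n] '' (pc '' Icc a b))

theorem reach_zero (w : ℝ → ℝ) (a b : ℝ) (hab : a < b) (ha : a ≤ 0) (hb : 0 ≤ b) : Reach w a b := by
  rcases hb.lt_or_eq with h | h
  · refine ⟨0, b, h, Or.inl ?_⟩
    rintro _ ⟨y, hy, rfl⟩
    exact ⟨pc y, ⟨y, ⟨by linarith [hy.1], hy.2⟩, rfl⟩, rfl⟩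
  · refine ⟨0, -a, by linarith, Or.inr ?_⟩
    rintro _ ⟨y, hy, rfl⟩
    exact ⟨pc y, ⟨y, ⟨by linarith [hy.1], by linarith [hy.2]⟩, rfl⟩, rfl⟩

theorem step_sub (w : ℝ → ℝ) (hw : GoodStep w) (a b : ℝ) (hab : a ≤ b) (hs : 0 < a * b) :
    pc '' Icc (gy w a) (gy w b) ⊆ fz w '' (pc '' Icc a b) := by
  rintro _ ⟨t, ht, rfl⟩
  obtain ⟨y, hy, rfl⟩ := hw.gy_ivt a b hab hs ht
  have hy0 : y ≠ 0 := by
    rintro rfl
    nlinarith [hy.1, hy.2]
  exact ⟨pc y, ⟨y, hy, rfl⟩, hw.fz_pc' y hy0⟩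

theorem reach_step (w : ℝ → ℝ) (hw : GoodStep w) (a b : ℝ) (hab : a ≤ b) (hs : 0 < a * b)
    (h : Reach w (gy w a) (gy w b)) : Reach w a b := by
  obtain ⟨n, δ, hδ, h⟩ := h
  have hsub : (fz w)^[n] '' (pc '' Icc (gy w a) (gy w b)) ⊆ (fz w)^[n + 1] '' (pc '' Icc a b) := by
    rw [Function.iterate_succ, Set.image_comp]
    exact image_mono (step_sub w hw a b hab hs)
  exact ⟨n + 1, δ, hδ, h.imp (fun h => h.trans hsub) (fun h => h.trans hsub)⟩

theorem inner (w : ℝ → ℝ) (hw : GoodStep w) (N : ℕ) : ∀ a b : ℝ, a < b → a ^ 2 ≤ N → b ^ 2 ≤ N →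
    Reach w a b ∨ (b - a < 1 ∧ ∃ a' b' : ℝ, a' < b' ∧ 2 * (b - a) ≤ b' - a' ∧
      (Reach w a' b' → Reach w a b)) := by
  induction N with
  | zero =>
    intro a b hab ha hb
    have h1 : a = 0 := by
      have : a ^ 2 ≤ 0 := by simpa using ha
      nlinarith [sq_nonneg a, pow_eq_zero_iff (two_ne_zero) |>.1 (le_antisymm this (sq_nonneg a))]
    have h2 : b = 0 := by
      have : b ^ 2 ≤ 0 := by simpa using hb
      nlinarith [sq_nonneg b, pow_eq_zero_iff (two_ne_zero) |>.1 (le_antisymm this (sq_nonneg b))]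
    linarith
  | succ N ih =>
    intro a b hab ha hb
    by_cases h0 : a ≤ 0 ∧ 0 ≤ b
    · exact Or.inl (reach_zero w a b hab h0.1 h0.2)
    · have hs : 0 < a * b := by
        rcases lt_or_ge 0 a with h | h
        · exact mul_pos h (h.trans hab)
        · have hb' : b < 0 := by
            by_contra hcon
            push Not at hcon
            exact h0 ⟨h, hcon⟩
          exact mul_pos_of_neg_of_neg (hab.trans hb') hb'
      have hlt := hw.gy_lt a b hab hs
      by_cases h1 : a ^ 2 ≤ 1 ∧ b ^ 2 ≤ 1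
      · right
        have ha1 := abs_le_one_iff_mul_self_le_one.2 (by nlinarith [h1.1] : a * a ≤ 1)
        have hb1 := abs_le_one_iff_mul_self_le_one.2 (by nlinarith [h1.2] : b * b ≤ 1)
        rw [abs_le] at ha1 hb1
        have hlen : b - a < 1 := by
          rcases lt_or_ge 0 a with h | h
          · linarith
          · have hb' : b < 0 := by
              by_contra hcon
              push Not at hcon
              exact h0 ⟨h, hcon⟩
            linarith
        refine ⟨hlen, gy w a, gy w b, by linarith, ?_, reach_step w hw a b hab.le hs⟩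
        have hgap := hw.gy_gap' a b hab hs
        have hab1 : a * b ≤ 1 := by nlinarith [sq_nonneg (a - b)]
        have h2 : 1 ≤ 1 / (a * b) := by
          rw [le_div_iff₀ hs]
          linarith
        nlinarith
      · by_cases h2 : 1 ≤ a ^ 2 ∧ 1 ≤ b ^ 2
        · have hsq : ∀ y : ℝ, 1 ≤ y ^ 2 → y ^ 2 ≤ ((N + 1 : ℕ) : ℝ) → (gy w y) ^ 2 ≤ N := by
            intro y hy hyN
            rw [hw.gy_big y hy]
            have hy0 : y ≠ 0 := by
              rintro rfl
              norm_num at hy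
            have e1 : (y - 1 / y) ^ 2 = y ^ 2 - 2 + 1 / y ^ 2 := by
              field_simp
              ring
            have e2 : 1 / y ^ 2 ≤ 1 := by
              rw [div_le_one (by positivity)]
              exact hy
            push_cast at hyN
            rw [e1]
            linarith
          rcases ih (gy w a) (gy w b) (by linarith) (hsq a h2.1 ha) (hsq b h2.2 hb) with h3 | ⟨h3, a', b', h4, h5, h6⟩
          · exact Or.inl (reach_step w hw a b hab.le hs h3)
          · exact Or.inr ⟨by linarith, a', b', h4, by linarith,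
              fun h => reach_step w hw a b hab.le hs (h6 h)⟩
        · left
          apply reach_step w hw a b hab.le hs
          rcases lt_or_ge 0 a with h | h
          · -- positive side
            have ha1 : a < 1 := by
              by_contra hcon
              push Not at hcon
              exact h2 ⟨by nlinarith, by nlinarith⟩
            have hb1 : 1 ≤ b ^ 2 := by
              by_contra hcon
              push Not at hcon
              exact h1 ⟨by nlinarith, hcon.le⟩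
            have e1 := hw.gy_small a h ha1
            have e2 : 0 ≤ gy w b := by
              rw [hw.gy_big b hb1]
              have hb0 : 0 < b := h.trans hab
              have : 1 / b ≤ b := by
                rw [div_le_iff₀ hb0]
                nlinarith
              linarith
            exact reach_zero w _ _ (by linarith) e1.le e2
          · have hb' : b < 0 := by
              by_contra hcon
              push Not at hcon
              exact h0 ⟨h, hcon⟩
            have hb1 : -1 < b := by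
              by_contra hcon
              push Not at hcon
              exact h2 ⟨by nlinarith, by nlinarith⟩
            have ha1 : 1 ≤ a ^ 2 := by
              by_contra hcon
              push Not at hcon
              exact h1 ⟨hcon.le, by nlinarith⟩
            have e1 := hw.gy_small (-b) (by linarith) (by linarith)
            rw [hw.gy_neg] at e1
            have e2 : gy w a ≤ 0 := by
              rw [hw.gy_big a ha1]
              have ha0 : a < 0 := hab.trans hb'
              have : a ≤ 1 / a := by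
                rw [le_div_iff_of_neg ha0]
                nlinarith
              linarith
            exact reach_zero w _ _ (by linarith) e2 (by linarith)

theorem outer (w : ℝ → ℝ) (hw : GoodStep w) (K : ℕ) : ∀ a b : ℝ, a < b → 1 ≤ 2 ^ K * (b - a) →
    Reach w a b := by
  induction K with
  | zero =>
    intro a b hab h
    obtain ⟨N, hN⟩ := exists_nat_ge (max (a ^ 2) (b ^ 2))
    rcases inner w hw N a b hab ((le_max_left _ _).trans hN) ((le_max_right _ _).trans hN) with h1 | ⟨h1, -⟩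
    · exact h1
    · rw [pow_zero, one_mul] at h
      linarith
  | succ K ih =>
    intro a b hab h
    obtain ⟨N, hN⟩ := exists_nat_ge (max (a ^ 2) (b ^ 2))
    rcases inner w hw N a b hab ((le_max_left _ _).trans hN) ((le_max_right _ _).trans hN) with h1 | ⟨-, a', b', h2, h3, h4⟩
    · exact h1
    · apply h4
      apply ih a' b' h2
      have : (2 : ℝ) ^ K * (2 * (b - a)) ≤ 2 ^ K * (b' - a') :=
        mul_le_mul_of_nonneg_left h3 (by positivity)
      rw [pow_succ] at h
      linarith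

theorem reach_all (w : ℝ → ℝ) (hw : GoodStep w) (a b : ℝ) (hab : a < b) : Reach w a b := by
  obtain ⟨K, hK⟩ := pow_unbounded_of_one_lt (1 / (b - a)) (one_lt_two (α := ℝ))
  refine outer w hw K a b hab ?_
  rw [div_lt_iff₀ (by linarith)] at hK
  exact hK.le

theorem low (w : ℝ → ℝ) (hw : GoodStep w) (δ : ℝ) (hδ : 0 < δ) :
    ∃ K : ℝ, 0 < K ∧ pc '' Iic (-K) ⊆ fz w '' (pc '' Ioc 0 δ) := by
  refine ⟨|gy w δ| + 1, by positivity, ?_⟩
  rintro _ ⟨t, ht, rfl⟩
  have ht1 : t ≤ gy w δ := by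
    have h1 := neg_abs_le (gy w δ)
    have h2 : t ≤ -(|gy w δ| + 1) := ht
    linarith
  obtain ⟨y0, hy0, hy1, hy2⟩ : ∃ y0 : ℝ, 0 < y0 ∧ y0 ≤ δ ∧ gy w y0 ≤ t := by
    refine ⟨min δ (1 / (|t| + 2)), lt_min hδ (by positivity), min_le_left _ _, ?_⟩
    have h1 : 0 < min δ (1 / (|t| + 2)) := lt_min hδ (by positivity)
    refine (hw.gy_le _ h1).trans ?_
    have h2 : min δ (1 / (|t| + 2)) ≤ 1 / (|t| + 2) := min_le_right _ _
    have h3 : |t| + 2 ≤ 1 / min δ (1 / (|t| + 2)) := by
      rw [le_div_iff₀ h1]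
      calc (|t| + 2) * min δ (1 / (|t| + 2)) ≤ (|t| + 2) * (1 / (|t| + 2)) :=
            mul_le_mul_of_nonneg_left h2 (by positivity)
        _ = 1 := by field_simp
    have h4 : 1 / (|t| + 2) ≤ 1 := by
      rw [div_le_one (by positivity)]
      linarith [abs_nonneg t]
    have h5 := neg_abs_le t
    linarith
  obtain ⟨y, hy, hyt⟩ := hw.gy_ivt y0 δ hy1 (mul_pos hy0 hδ) ⟨hy2, ht1⟩
  have hypos : 0 < y := hy0.trans_le hy.1
  exact ⟨pc y, ⟨y, ⟨hypos, hy.2⟩, rfl⟩, by rw [hw.fz_pc' y hypos.ne', hyt]⟩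

theorem gy_far (w : ℝ → ℝ) (hw : GoodStep w) (t c : ℝ) : ∃ y0 : ℝ, y0 ≤ -1 ∧ y0 ≤ c ∧ gy w y0 ≤ t := by
  refine ⟨min (min (-1) c) (t - 1), (min_le_left _ _).trans (min_le_left _ _),
    (min_le_left _ _).trans (min_le_right _ _), ?_⟩
  obtain ⟨y, hy⟩ : ∃ y, y = min (min (-1) c) (t - 1) := ⟨_, rfl⟩
  rw [← hy]
  have h1 : y ≤ -1 := by rw [hy]; exact (min_le_left _ _).trans (min_le_left _ _)
  have h2 : y ≤ t - 1 := by rw [hy]; exact min_le_right _ _
  rw [hw.gy_big y (by nlinarith)]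
  have h3 : -1 ≤ 1 / y := by
    rw [le_div_iff_of_neg (by linarith)]
    linarith
  linarith

theorem grow_step (w : ℝ → ℝ) (hw : GoodStep w) (K : ℝ) (hK : 0 < K) :
    pc '' Iic (gy w (-K)) ⊆ fz w '' (pc '' Iic (-K)) := by
  rintro _ ⟨t, ht, rfl⟩
  obtain ⟨y0, hy1, hy2, hy3⟩ := gy_far w hw t (-K)
  obtain ⟨y, hy, hyt⟩ := hw.gy_ivt y0 (-K) hy2 (mul_pos_of_neg_of_neg (by linarith) (by linarith))
    ⟨hy3, ht⟩
  have hyneg : y ≠ 0 := by
    have := hy.2
    intro h
    linarith
  exact ⟨pc y, ⟨y, hy.2, rfl⟩, by rw [hw.fz_pc' y hyneg, hyt]⟩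

theorem grow (w : ℝ → ℝ) (hw : GoodStep w) (N : ℕ) : ∀ K : ℝ, 0 < K → K ^ 2 ≤ N →
    ∃ m : ℕ, pc '' Iic 0 ⊆ (fz w)^[m] '' (pc '' Iic (-K)) := by
  induction N with
  | zero =>
    intro K hK h
    have : (0 : ℝ) < K ^ 2 := by positivity
    simp only [Nat.cast_zero] at h
    linarith
  | succ N ih =>
    intro K hK h
    have hst := grow_step w hw K hK
    rcases le_or_gt K 1 with h1 | h1
    · refine ⟨1, ?_⟩
      rw [Function.iterate_one]
      refine Subset.trans (image_mono (Iic_subset_Iic.2 ?_)) hst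
      rw [hw.gy_neg]
      rcases h1.lt_or_eq with h2 | h2
      · have := hw.gy_small K hK h2
        linarith
      · rw [hw.gy_big K (by rw [h2]; norm_num), h2]
        norm_num
    · have hK1 : 1 ≤ K ^ 2 := by nlinarith
      have e0 : gy w (-K) = -(K - 1 / K) := by rw [hw.gy_neg, hw.gy_big K hK1]
      have e1 : 0 < K - 1 / K := by
        have : 1 / K < 1 := by
          rw [div_lt_one hK]
          exact h1
        linarith
      have e2 : (K - 1 / K) ^ 2 ≤ N := by
        have e3 : (K - 1 / K) ^ 2 = K ^ 2 - 2 + 1 / K ^ 2 := by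
          field_simp
          ring
        have e4 : 1 / K ^ 2 ≤ 1 := by
          rw [div_le_one (by positivity)]
          exact hK1
        push_cast at h
        rw [e3]
        linarith
      obtain ⟨m, hm⟩ := ih _ e1 e2
      refine ⟨m + 1, ?_⟩
      rw [Function.iterate_succ, Set.image_comp]
      rw [e0] at hst
      exact hm.trans (image_mono hst)

theorem last (w : ℝ → ℝ) (hw : GoodStep w) : fz w '' (pc '' Iic 0) = univ := by
  rw [eq_univ_iff_forall]
  intro x
  by_cases hx : x = 0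
  · exact ⟨pc 0, ⟨0, mem_Iic.2 le_rfl, rfl⟩, by rw [hw.fz_pc0, hx]⟩
  · obtain ⟨t, rfl⟩ := pc_surj x hx
    obtain ⟨y1, hy1, -, hy2⟩ := gy_far w hw t (-1)
    obtain ⟨s, hs0, hs1, hs2⟩ : ∃ s : ℝ, 0 < s ∧ s < 1 ∧ t ≤ gy w (-s) := by
      refine ⟨1 / (|t| + 2), by positivity, ?_, ?_⟩
      · rw [div_lt_one (by positivity)]
        linarith [abs_nonneg t]
      · rw [hw.gy_neg]
        have h1 := hw.gy_le (1 / (|t| + 2)) (by positivity)
        rw [one_div_one_div] at h1
        have h2 : 1 / (|t| + 2) ≤ 1 := by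
          rw [div_le_one (by positivity)]
          linarith [abs_nonneg t]
        have h3 := le_abs_self t
        linarith
    obtain ⟨y, hy, hyt⟩ := hw.gy_ivt y1 (-s) (by linarith)
      (mul_pos_of_neg_of_neg (by linarith) (by linarith)) ⟨hy2, hs2⟩
    have hyneg : y < 0 := by
      have := hy.2
      linarith
    exact ⟨pc y, ⟨y, hyneg.le, rfl⟩, by rw [hw.fz_pc' y hyneg.ne, hyt]⟩

theorem iter_neg' (w : ℝ → ℝ) (n : ℕ) (x : Circ) : (fz w)^[n] (-x) = -(fz w)^[n] x := by
  induction n generalizing x with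
  | zero => rfl
  | succ n ih => rw [Function.iterate_succ_apply, Function.iterate_succ_apply, fz_neg, ih]

theorem pos_case (w : ℝ → ℝ) (hw : GoodStep w) (U : Set Circ) (n : ℕ) (δ : ℝ) (hδ : 0 < δ)
    (h : pc '' Ioc 0 δ ⊆ (fz w)^[n] '' U) : ∃ m : ℕ, (fz w)^[m] '' U = univ := by
  obtain ⟨K, hK, h1⟩ := low w hw δ hδ
  obtain ⟨N, hN⟩ := exists_nat_ge (K ^ 2)
  obtain ⟨m, hm⟩ := grow w hw N K hK hN
  refine ⟨1 + (m + (1 + n)), ?_⟩
  rw [Function.iterate_add, Function.iterate_add, Function.iterate_add, Function.iterate_one,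
    Set.image_comp, Set.image_comp, Set.image_comp]
  apply eq_univ_of_univ_subset
  rw [← last w hw]
  exact image_mono (hm.trans (image_mono (h1.trans (image_mono h))))

theorem neg_case (w : ℝ → ℝ) (hw : GoodStep w) (U : Set Circ) (n : ℕ) (δ : ℝ) (hδ : 0 < δ)
    (h : pc '' Ico (-δ) 0 ⊆ (fz w)^[n] '' U) : ∃ m : ℕ, (fz w)^[m] '' U = univ := by
  have h1 : pc '' Ioc 0 δ ⊆ (fz w)^[n] '' ((fun x => -x) '' U) := by
    rintro _ ⟨y, hy, rfl⟩
    obtain ⟨x, hx, hxy⟩ := h ⟨-y, ⟨by linarith [hy.2], by linarith [hy.1]⟩, rfl⟩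
    refine ⟨-x, ⟨x, hx, rfl⟩, ?_⟩
    rw [iter_neg', hxy, pc_neg, neg_neg]
  obtain ⟨m, hm⟩ := pos_case w hw _ n δ hδ h1
  refine ⟨m, ?_⟩
  rw [eq_univ_iff_forall]
  intro x
  have hx : -x ∈ (fz w)^[m] '' ((fun x => -x) '' U) := by
    rw [hm]
    trivial
  obtain ⟨_, ⟨z, hz, rfl⟩, hzx⟩ := hx
  refine ⟨z, hz, ?_⟩
  rw [iter_neg'] at hzx
  exact neg_injective hzx

theorem leo (w : ℝ → ℝ) (hw : GoodStep w) (U : Set Circ) (hU : IsOpen U) (hne : U.Nonempty) :
    ∃ m : ℕ, (fz w)^[m] '' U = univ := by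
  obtain ⟨x, hx, hx0⟩ : ∃ x ∈ U, x ≠ (0 : Circ) := by
    obtain ⟨x, hx, y, hy, hxy⟩ := (circ_open_infinite U hU hne).nontrivial
    by_cases h : x = 0
    · exact ⟨y, hy, fun h' => hxy (h.trans h'.symm)⟩
    · exact ⟨x, hx, h⟩
  obtain ⟨t, rfl⟩ := pc_surj x hx0
  obtain ⟨r, hr, hball⟩ := Metric.mem_nhds_iff.1 ((hU.preimage pc_cont).mem_nhds hx)
  have hsub : pc '' Icc t (t + r / 2) ⊆ U := by
    rintro _ ⟨y, hy, rfl⟩
    apply hball
    rw [Metric.mem_ball, Real.dist_eq, abs_lt]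
    constructor <;> linarith [hy.1, hy.2]
  obtain ⟨n, δ, hδ, h | h⟩ := reach_all w hw t (t + r / 2) (by linarith)
  · exact pos_case w hw U n δ hδ (h.trans (image_mono hsub))
  · exact neg_case w hw U n δ hδ (h.trans (image_mono hsub))

theorem fz_surj (w : ℝ → ℝ) (hw : GoodStep w) : Function.Surjective (fz w) := by
  intro x
  have : x ∈ fz w '' (pc '' Iic 0) := by
    rw [last w hw]
    trivial
  obtain ⟨y, -, hy⟩ := this
  exact ⟨y, hy⟩

theorem HP_univ (w : ℝ → ℝ) (hw : GoodStep w) : HP (fz w) univ := by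
  refine ⟨isOpen_univ, fun U V hU hV hUi hVi _ _ => ?_⟩
  obtain ⟨m1, h1⟩ := leo w hw (interior U) isOpen_interior hUi
  obtain ⟨m2, h2⟩ := leo w hw (interior V) isOpen_interior hVi
  have hall : ∀ (A : Set Circ) (m k : ℕ), (fz w)^[m] '' (interior A) = univ →
      (fz w)^[k + m] '' A = univ := by
    intro A m k h
    rw [Function.iterate_add, Set.image_comp]
    apply eq_univ_of_univ_subset
    have h3 : (fz w)^[m] '' A = univ :=
      eq_univ_of_univ_subset (h ▸ image_mono interior_subset)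
    rw [h3, image_univ, ((fz_surj w hw).iterate k).range_eq]
  refine ⟨(m2 + 1) + m1, by omega, ?_, ?_⟩
  · rw [hall U m1 (m2 + 1) h1]
    exact subset_univ _
  · rw [show (m2 + 1) + m1 = (m1 + 1) + m2 by omega, hall V m2 (m1 + 1) h2]
    exact subset_univ _

/-- If the profile vanishes on a right neighbourhood of zero, some open set is mapped to a point. -/
theorem not_Lt (w : ℝ → ℝ) (h0 : ∀ r, 0 ≤ w r) (hmono : Monotone w)
    (h1 : ∀ r, 1 / 2 ≤ r → w r = 1) (r0 : ℝ) (hr0 : 0 < r0) (hwr : w r0 = 0) : ¬ Lt (fz w) := by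
  intro h
  have hr : r0 < 1 / 2 := by
    by_contra hcon
    push Not at hcon
    have := h1 r0 hcon
    linarith
  have hUo : IsOpen {x : Circ | (1 + Cx x) / 2 < r0} :=
    isOpen_lt ((continuous_const.add Cx_cont).div_const 2) continuous_const
  have hUne : {x : Circ | (1 + Cx x) / 2 < r0}.Nonempty := by
    refine ⟨pc 0, ?_⟩
    show (1 + Cx (pc 0)) / 2 < r0
    rw [Cx_pc]
    norm_num
    exact hr0
  obtain ⟨x, hx, hne⟩ := h 1 _ 0 hUo hUne
  have hx : (1 + Cx x) / 2 < r0 := hx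
  apply hne
  have hx0 : x ≠ 0 := by
    rintro rfl
    rw [← AddCircle.coe_zero, Cx_coe] at hx
    simp at hx
    linarith
  obtain ⟨y, rfl⟩ := pc_surj x hx0
  rw [Function.iterate_one]
  apply fz_pc_zero w h0 h1
  rw [Cx_pc, half_C] at hx
  have := hmono hx.le
  rw [hwr] at this
  exact le_antisymm this (h0 _)

end Pool.Agent.Y313.CP
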