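import Mathlib
import Pool.Agent.Helper222.CPE.Borel
import Pool.Agent.Y313.CP.Char
import Pool.Agent.Y313.CP.Dyn

open Set Filter Topology

namespace Pool.Agent.Y313.CP

open Pool.Agent.Helper222.CPE

/-- The map `fz w`, on `T 1`. -/
noncomputable def Fz (w : ℝ → ℝ) (x : T 1) : T 1 := fun i => fz w (x i)

theorem Fz_conj (w : ℝ → ℝ) :
    (fun x' : Circ => (Homeomorph.funUnique (Fin 1) Circ)
      (Fz w ((Homeomorph.funUnique (Fin 1) Circ).symm x'))) = fz w := by
  funext x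
  rfl

theorem fz_joint {Z : Type} [MetricSpace Z] (ω : Z → ℝ → ℝ)
    (hω : Continuous (fun p : Z × ℝ => ω p.1 p.2)) (h0 : ∀ z r, 0 ≤ ω z r)
    (h1 : ∀ z r, 1 / 2 ≤ r → ω z r = 1) : Continuous (fun p : Z × Circ => fz (ω p.1) p.2) := by
  unfold fz Pr
  have hC : Continuous (fun p : Z × Circ => Cx p.2) := Cx_cont.comp continuous_snd
  have hS : Continuous (fun p : Z × Circ => Sx p.2) := Sx_cont.comp continuous_snd
  have hW : Continuous (fun p : Z × Circ => ω p.1 ((1 + Cx p.2) / 2)) :=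
    hω.comp (continuous_fst.prodMk ((continuous_const.add hC).div_const 2))
  have hnum : Continuous (fun p : Z × Circ => num (ω p.1) (Cx p.2) (Sx p.2)) := by
    unfold num
    exact (hS.div_const 2).mul ((continuous_const.sub hC).sub hW)
  have hden : Continuous (fun p : Z × Circ => den (ω p.1) (Cx p.2)) := by
    unfold den
    exact (hW.mul ((continuous_const.add hC).div_const 2)).sub
      (((continuous_const.sub hC).div_const 2).mul hC)
  have hq : Continuous (fun p : Z × Circ => num (ω p.1) (Cx p.2) (Sx p.2) / den (ω p.1) (Cx p.2)) :=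
    hnum.div hden fun p => (den_pos (ω p.1) (h0 p.1) (h1 p.1) _ (Cx_mem _)).ne'
  have hP : Continuous (fun p : Z × Circ =>
      (1 / Real.pi) * Real.arctan (num (ω p.1) (Cx p.2) (Sx p.2) / den (ω p.1) (Cx p.2))) :=
    continuous_const.mul (Real.continuous_arctan.comp hq)
  exact (continuous_snd.add continuous_snd).add ((AddCircle.continuous_mk' (1 : ℝ)).comp hP)

theorem Fz_isCk (w : ℝ → ℝ) (hw : ContDiff ℝ ((⊤ : ℕ∞) : WithTop ℕ∞) w) (h0 : ∀ r, 0 ≤ w r)
    (h1 : ∀ r, 1 / 2 ≤ r → w r = 1) (k : ℕ∞) : IsCk 1 k (Fz w) := by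
  have hcos : ContDiff ℝ ((⊤ : ℕ∞) : WithTop ℕ∞)
      (fun v : Fin 1 → ℝ => Real.cos (2 * Real.pi * v 0)) :=
    Real.contDiff_cos.comp (contDiff_const.mul (contDiff_apply ℝ ℝ (0 : Fin 1)))
  have hsin : ContDiff ℝ ((⊤ : ℕ∞) : WithTop ℕ∞)
      (fun v : Fin 1 → ℝ => Real.sin (2 * Real.pi * v 0)) :=
    Real.contDiff_sin.comp (contDiff_const.mul (contDiff_apply ℝ ℝ (0 : Fin 1)))
  have hW : ContDiff ℝ ((⊤ : ℕ∞) : WithTop ℕ∞)
      (fun v : Fin 1 → ℝ => w ((1 + Real.cos (2 * Real.pi * v 0)) / 2)) :=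
    hw.comp ((contDiff_const.add hcos).div_const 2)
  have hnum : ContDiff ℝ ((⊤ : ℕ∞) : WithTop ℕ∞) (fun v : Fin 1 → ℝ =>
      num w (Real.cos (2 * Real.pi * v 0)) (Real.sin (2 * Real.pi * v 0))) := by
    unfold num
    exact (hsin.div_const 2).mul ((contDiff_const.sub hcos).sub hW)
  have hden : ContDiff ℝ ((⊤ : ℕ∞) : WithTop ℕ∞) (fun v : Fin 1 → ℝ =>
      den w (Real.cos (2 * Real.pi * v 0))) := by
    unfold den
    exact (hW.mul ((contDiff_const.add hcos).div_const 2)).sub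
      (((contDiff_const.sub hcos).div_const 2).mul hcos)
  have hP : ContDiff ℝ ((⊤ : ℕ∞) : WithTop ℕ∞) (fun v : Fin 1 → ℝ =>
      Pr w (Real.cos (2 * Real.pi * v 0)) (Real.sin (2 * Real.pi * v 0))) := by
    unfold Pr
    refine contDiff_const.mul ((hnum.div hden fun v => ?_).arctan)
    exact (den_pos w h0 h1 _ ⟨Real.neg_one_le_cos _, Real.cos_le_one _⟩).ne'
  refine ⟨fun v _ => v 0 + v 0 + Pr w (Real.cos (2 * Real.pi * v 0)) (Real.sin (2 * Real.pi * v 0)),
    ?_, ?_⟩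
  · have hall : ContDiff ℝ ((⊤ : ℕ∞) : WithTop ℕ∞) (fun (v : Fin 1 → ℝ) (_ : Fin 1) =>
        v 0 + v 0 + Pr w (Real.cos (2 * Real.pi * v 0)) (Real.sin (2 * Real.pi * v 0))) :=
      contDiff_pi.2 fun _ =>
        ((contDiff_apply ℝ ℝ (0 : Fin 1)).add (contDiff_apply ℝ ℝ (0 : Fin 1))).add hP
    exact hall.of_le (by exact_mod_cast le_top)
  · intro x
    funext i
    have hi : i = 0 := Subsingleton.elim _ _
    subst hi
    show ((x 0 + x 0 + Pr w (Real.cos (2 * Real.pi * x 0)) (Real.sin (2 * Real.pi * x 0)) : ℝ) : Circ)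
      = fz w ((x 0 : ℝ) : Circ)
    unfold fz
    rw [Cx_coe, Sx_coe, AddCircle.coe_add, AddCircle.coe_add]

theorem cpe_of_goodStep (w : ℝ → ℝ) (hw : GoodStep w) : IsCPE (Fz w) := by
  have hHP : HP (Fz w) ((Homeomorph.funUnique (Fin 1) Circ).symm '' univ) := by
    apply HP_conj (Homeomorph.funUnique (Fin 1) Circ) (Fz w) univ
    rw [Fz_conj]
    exact HP_univ w hw
  refine isCPE_of_PP (Fz w) (PP_of_HP (Fz w)
    {(Homeomorph.funUnique (Fin 1) Circ).symm '' univ} (Set.finite_singleton _) ?_ ?_)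
  · intro W hW
    rw [Set.mem_singleton_iff] at hW
    rw [hW]
    exact hHP
  · rw [Set.sUnion_singleton, image_univ, (Homeomorph.funUnique (Fin 1) Circ).symm.range_coe]
    exact dense_univ

theorem not_cpe_of_bad (w : ℝ → ℝ) (hc : Continuous (Fz w)) (h0 : ∀ r, 0 ≤ w r) (hmono : Monotone w)
    (h1 : ∀ r, 1 / 2 ≤ r → w r = 1) (r0 : ℝ) (hr0 : 0 < r0) (hwr : w r0 = 0) :
    ¬ IsCPE (Fz w) := by
  intro h
  have hcpe := isCPE_conj (Homeomorph.funUnique (Fin 1) Circ) (Fz w) h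
  rw [Fz_conj] at hcpe
  have hfc : Continuous (fz w) := by
    rw [← Fz_conj]
    exact (Homeomorph.funUnique (Fin 1) Circ).continuous.comp
      (hc.comp (Homeomorph.funUnique (Fin 1) Circ).symm.continuous)
  exact not_Lt w h0 hmono h1 r0 hr0 hwr
    (lt_of_nw (fz w) hfc (nw_of_cpe (fz w) hfc hcpe) circ_open_infinite)

/-- **Every `G_δ` set is continuously reducible to the set of smooth circle maps with CPE.** -/
theorem exists_reduction {Z : Type} [MetricSpace Z] (A : Set Z) (hA : IsGδ A) :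
    ∃ r : Z → C(T 1, T 1), Continuous r ∧ (∀ z (k : ℕ∞), IsCk 1 k (r z)) ∧
      ∀ z, IsCPE (r z : T 1 → T 1) ↔ z ∈ A := by
  obtain ⟨ω, hω, hsm, hmono, hz, ho, hpos, hbad⟩ := exists_omega A hA
  have h0 : ∀ z r, 0 ≤ ω z r := by
    intro z r
    rw [← hz z (min r 0) (min_le_right _ _)]
    exact hmono z (min_le_left _ _)
  have hj := fz_joint ω hω h0 ho
  have hJ : Continuous (fun p : Z × T 1 => Fz (ω p.1) p.2) := by
    refine continuous_pi fun i => ?_
    have h2 : Continuous (fun p : Z × T 1 => p.2 i) := (continuous_apply i).comp continuous_snd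
    have h3 : Continuous (fun p : Z × T 1 => (p.1, p.2 i)) := continuous_fst.prodMk h2
    have h4 : Continuous ((fun p : Z × Circ => fz (ω p.1) p.2) ∘ (fun p : Z × T 1 => (p.1, p.2 i))) :=
      Continuous.comp hj h3
    have h5 : ((fun p : Z × Circ => fz (ω p.1) p.2) ∘ (fun p : Z × T 1 => (p.1, p.2 i))) =
        fun p : Z × T 1 => Fz (ω p.1) p.2 i := by
      funext p
      simp only [Function.comp_apply, Fz]
    rw [h5] at h4
    exact h4
  obtain ⟨G, hG⟩ : ∃ G : C(Z × T 1, T 1), ∀ p, G p = Fz (ω p.1) p.2 := ⟨⟨_, hJ⟩, fun _ => rfl⟩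
  have hcoe : ∀ z, ((G.curry z : C(T 1, T 1)) : T 1 → T 1) = Fz (ω z) := by
    intro z
    funext x
    rw [ContinuousMap.curry_apply, hG]
  refine ⟨fun z => G.curry z, G.curry.continuous, fun z k => ?_, fun z => ?_⟩
  · rw [hcoe]
    exact Fz_isCk (ω z) (hsm z) (h0 z) (ho z) k
  · have hcz : Continuous (Fz (ω z)) := by
      rw [← hcoe]
      exact (G.curry z).continuous
    rw [hcoe]
    constructor
    · intro h
      by_contra hcon
      obtain ⟨r0, hr0, hwr⟩ := hbad z hcon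
      exact not_cpe_of_bad (ω z) hcz (h0 z) (hmono z) (ho z) r0 hr0 hwr h
    · intro h
      exact cpe_of_goodStep (ω z) ⟨(hsm z).continuous, hmono z, hz z, ho z, hpos z h⟩

end Pool.Agent.Y313.CP
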